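import Pool.Agent.Lib_MP_418a80_ab.Defs

/-!
# Spectral gap and pointwise outerness

`HasSpectralGap M` is the usual spectral gap property of a II₁ factor; for `M` with separable
predual it is equivalent to the absence of property Gamma (Connes, Ann. of Math. 104 (1976)).
-/

set_option autoImplicit false

namespace Pool.Agent.AbCoc

universe u v

variable {H : Type u} [NormedAddCommGroup H] [InnerProductSpace ℂ H] [CompleteSpace H]

/-- `M` has spectral gap: there are finitely many unitaries `u i` of `M` and a constant `C` such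
that every `x ∈ M` has distance at most `(C ∑ ‖u i x - x (u i)‖₂²)^(1/2)` from the scalars, in the
`2`-norm `‖x‖₂² = ∑ ‖x ξ_k‖²` of the trace. -/
def HasSpectralGap (M : VonNeumannAlgebra H) : Prop :=
  ∃ ξ : ℕ → H, IsTracialFamily M ξ ∧ ∃ (n : ℕ) (u : Fin n → (H →L[ℂ] H)) (C : ℝ),
    (∀ i, u i ∈ M ∧ star (u i) * u i = 1 ∧ u i * star (u i) = 1) ∧
    ∀ x ∈ M, ∃ c : ℂ, ∑' k, ‖(x - c • (1 : H →L[ℂ] H)) (ξ k)‖ ^ 2
      ≤ C * ∑ i, ∑' k, ‖(u i * x - x * u i) (ξ k)‖ ^ 2

/-- every `α g`, `g ≠ 1`, is an outer automorphism of `M` -/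
def IsPointwiseOuter {G : Type v} [Group G] (M : VonNeumannAlgebra H)
    (α : G → (H →L[ℂ] H) → (H →L[ℂ] H)) : Prop :=
  ∀ g : G, g ≠ 1 → ¬ ∃ u ∈ M, star u * u = 1 ∧ u * star u = 1 ∧
    ∀ x ∈ M, α g x = u * x * star u

end Pool.Agent.AbCoc
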