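import Pool.Agent.Lib_MP_418a80_gap.Gap8
import Pool.Agent.Lib_MP_418a80_gap.Stmt
import Pool.Agent.Lib_MP_418a80_hyp.Folner
import Pool.Agent.Lib_MP_418a80_ab.Final

/-!
# Spectral gap, part 9: II₁ factors with spectral gap
-/

set_option autoImplicit false
set_option linter.unusedVariables false
set_option linter.unusedSectionVars false

open MeasureTheory Topology Filter TopologicalSpace
open scoped ENNReal

namespace Pool.Agent.AbCoc

universe u v w

variable {H : Type u} [NormedAddCommGroup H] [InnerProductSpace ℂ H] [CompleteSpace H]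

section
variable {G : Type v} [Group G] [TopologicalSpace G] [IsTopologicalGroup G]
  [SecondCountableTopology G] [LocallyCompactSpace G] [T2Space G]
  [MeasurableSpace G] [BorelSpace G] (μ : Measure G) [μ.IsHaarMeasure]
  {M : VonNeumannAlgebra H} {α : G → (H →L[ℂ] H) → (H →L[ℂ] H)}

/-- strictly outer actions are pointwise outer -/
theorem IsStrictlyOuter.isPointwiseOuter [Nontrivial H] (hα : IsAction M α)
    (h : IsStrictlyOuter μ M α) : IsPointwiseOuter M α := by
  rintro g hg1 ⟨u, huM, hu1, hu2, hu3⟩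
  obtain ⟨U, hU⟩ : ∃ U : Alg M, U = ⟨u, huM⟩ := ⟨_, rfl⟩
  have hUl : star U * U = 1 := by rw [hU]; exact Subtype.ext hu1
  have hUr : U * star U = 1 := by rw [hU]; exact Subtype.ext hu2
  have hact : ∀ x : Alg M, actHom hα g x = U * x * star U := fun x => by
    rw [hU]
    exact Subtype.ext (hu3 x x.2)
  -- the operator `π(u*) λ_g`
  obtain ⟨c, hc⟩ := h (piOp μ hα (star U) * (lam μ H).U g) (by
      unfold crossedProduct
      intro B hB
      have h1 := hB _ (Set.mem_union_left _ (piOp_mem μ hα (star U)))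
      have h2 := hB _ (Set.mem_union_right _ (lam_mem μ g))
      calc B * (piOp μ hα (star U) * (lam μ H).U g)
          = (B * piOp μ hα (star U)) * (lam μ H).U g := (mul_assoc _ _ _).symm
        _ = piOp μ hα (star U) * (B * (lam μ H).U g) := by rw [← h1, mul_assoc]
        _ = piOp μ hα (star U) * (lam μ H).U g * B := by rw [← h2, mul_assoc])
    (by
      intro B hB
      obtain ⟨x, rfl⟩ := exists_piOp μ hα hB
      have h1 : star U * (actHom hα g x) = x * star U := by
        rw [hact, ← mul_assoc, ← mul_assoc, hUl, one_mul]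
      calc piOp μ hα (star U) * (lam μ H).U g * piOp μ hα x
          = piOp μ hα (star U) * (piOp μ hα (actHom hα g x) * (lam μ H).U g) := by
            rw [mul_assoc, lam_mul_piOp]
        _ = piOp μ hα (star U * actHom hα g x) * (lam μ H).U g := by
            rw [← mul_assoc, piOp_mul]
        _ = piOp μ hα x * (piOp μ hα (star U) * (lam μ H).U g) := by
            rw [h1, piOp_mul, mul_assoc])
  have hlam : (lam μ H).U g = c • piOp μ hα U := by
    have h1 : piOp μ hα U * (piOp μ hα (star U) * (lam μ H).U g) = (lam μ H).U g := by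
      rw [← mul_assoc, ← piOp_mul, hUr, piOp_one, one_mul]
    rw [← h1, hc, mul_smul_comm, mul_one]
  -- a set moved off itself
  obtain ⟨V, hV⟩ : ∃ V : Set G, IsOpen V ∧ (1 : G) ∈ V ∧ IsCompact (closure V) ∧
      ∀ t ∈ V, g⁻¹ * t ∉ V := by
    obtain ⟨V1, V2, h1, h2, h3, h4, h5⟩ := t2_separation (show (1 : G) ≠ g⁻¹ from fun h1 => hg1 (by
      rw [← inv_inv g, ← h1, inv_one]))
    have hcont : Continuous fun t : G => g⁻¹ * t := continuous_const_mul g⁻¹
    obtain ⟨K0, hK0, hK1⟩ := exists_compact_mem_nhds (1 : G)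
    refine ⟨V1 ∩ (fun t => g⁻¹ * t) ⁻¹' V2 ∩ interior K0,
      (h1.inter (h2.preimage hcont)).inter isOpen_interior,
      ⟨⟨h3, by change g⁻¹ * 1 ∈ V2; rw [mul_one]; exact h4⟩, mem_interior_iff_mem_nhds.2 hK1⟩, ?_, ?_⟩
    · refine hK0.of_isClosed_subset isClosed_closure ?_
      refine closure_minimal (Set.inter_subset_right.trans interior_subset) hK0.isClosed
    · rintro t ⟨⟨ht1, ht2⟩, _⟩ ⟨⟨ht3, _⟩, _⟩
      exact (Set.disjoint_left.1 h5) ht3 ht2
  obtain ⟨hVo, hV1, hVc, hVg⟩ := hV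
  have hVfin : μ V ≠ ∞ := ((measure_mono subset_closure).trans_lt hVc.measure_lt_top).ne
  have hVpos : μ V ≠ 0 := (hVo.measure_pos μ ⟨1, hV1⟩).ne'
  obtain ⟨η, hη⟩ := exists_ne (0 : H)
  obtain ⟨f, hf⟩ : ∃ f : Lp H 2 μ, f = indicatorConstLp 2 hVo.measurableSet hVfin η := ⟨_, rfl⟩
  have hfae : f =ᵐ[μ] V.indicator fun _ => η := by rw [hf]; exact indicatorConstLp_coeFn
  have hne : ∀ᵐ t ∂μ, t ∉ V := by
    have h1 : (lam μ H).U g f = (c • piOp μ hα U) f := by rw [hlam]
    have h2 : ((lam μ H).U g f : G → H) =ᵐ[μ] fun t => c • (α t⁻¹ u (f t)) := by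
      rw [h1]
      filter_upwards [Lp.coeFn_smul c (piOp μ hα U f), piOp_ae μ hα U f] with t h3 h4
      change (c • (piOp μ hα U f) : Lp H 2 μ) t = _
      rw [h3, Pi.smul_apply, h4, hU]
    -- translate by `g`
    have h5 := ae_translate μ g h2
    have h6 := ae_translate μ g (lam_ae μ g f)
    have h7 := ae_translate μ g hfae
    filter_upwards [h5, h6, h7, hfae] with t a1 a2 a3 a4
    intro htV
    have hgt : g * t ∉ V := by
      intro hgt
      have := hVg (g * t) hgt
      rw [inv_mul_cancel_left] at this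
      exact this htV
    rw [a2, inv_mul_cancel_left, a4, a3, Set.indicator_of_mem htV, Set.indicator_of_notMem hgt,
      map_zero, smul_zero] at a1
    exact hη a1
  exact hVpos (by
    have := ae_iff.1 hne
    simpa using this)

end

theorem trAlgOf_norm_sq (M : VonNeumannAlgebra H) (ξ : ℕ → H) (h : IsTracialFamily M ξ)
    (a : Alg M) : ‖(trAlgOf M ξ h).ι a‖ ^ 2 = ∑' k, ‖(a : H →L[ℂ] H) (ξ k)‖ ^ 2 := by
  have h1 := lp.norm_rpow_eq_tsum (p := 2) (by simp)
    (((trAlgOf M ξ h).ι a : L2 M ξ h) : lp (fun _ : ℕ => H) 2)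
  simp only [ENNReal.toReal_ofNat, Real.rpow_ofNat] at h1
  exact h1

/-- spectral gap from a family of unitaries -/
theorem TrAlg.gap_of_family {A : Type u} [CStarAlgebra A] {K : Type v} [NormedAddCommGroup K]
    [InnerProductSpace ℂ K] [DecidableEq A] (T : TrAlg A K) {n : ℕ} (U : Fin n → A)
    (hUl : ∀ i, star (U i) * U i = 1) (hUr : ∀ i, U i * star (U i) = 1) (C : ℝ)
    (hC : ∀ x : A, ∃ c : ℂ, ‖T.ι (x - c • (1 : A))‖ ^ 2
      ≤ C * ∑ i, ‖T.ι (U i * x - x * U i)‖ ^ 2) :
    T.Gap (Finset.image U Finset.univ) (max C 0 * n) := by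
  refine ⟨by positivity, ?_, ?_⟩
  · intro w hw
    obtain ⟨i, _, rfl⟩ := Finset.mem_image.1 hw
    exact ⟨hUl i, hUr i⟩
  · intro x
    obtain ⟨c, h1⟩ := hC x
    have h2 : ‖T.ι (x - T.τ x • (1 : A))‖ ≤ ‖T.ι (x - c • (1 : A))‖ := by
      have h3 := T.norm_sub_τ_le (x - c • (1 : A))
      have h4 : x - c • (1 : A) - T.τ (x - c • (1 : A)) • (1 : A) = x - T.τ x • (1 : A) := by
        rw [T.τ_sub, T.τ_smul, T.τ_one, mul_one, sub_smul]
        abel
      rwa [h4] at h3
    have h5 := pow_le_pow_left₀ (norm_nonneg _) h2 2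
    refine h5.trans (h1.trans ?_)
    have h6 : ∑ i, ‖T.ι (U i * x - x * U i)‖ ^ 2
        ≤ n * ∑ w ∈ Finset.image U Finset.univ, ‖T.ι (w * x - x * w)‖ ^ 2 := by
      have h7 : ∀ i, ‖T.ι (U i * x - x * U i)‖ ^ 2
          ≤ ∑ w ∈ Finset.image U Finset.univ, ‖T.ι (w * x - x * w)‖ ^ 2 := fun i =>
        Finset.single_le_sum (f := fun w => ‖T.ι (w * x - x * w)‖ ^ 2)
          (fun w _ => by positivity) (Finset.mem_image_of_mem U (Finset.mem_univ i))
      refine (Finset.sum_le_sum fun i _ => h7 i).trans (le_of_eq ?_)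
      rw [Finset.sum_const, Finset.card_univ, Fintype.card_fin, nsmul_eq_mul]
    have h8 : 0 ≤ ∑ i, ‖T.ι (U i * x - x * U i)‖ ^ 2 := by positivity
    calc C * ∑ i, ‖T.ι (U i * x - x * U i)‖ ^ 2
        ≤ max C 0 * ∑ i, ‖T.ι (U i * x - x * U i)‖ ^ 2 :=
          mul_le_mul_of_nonneg_right (le_max_left _ _) h8
      _ ≤ max C 0 * (n * ∑ w ∈ Finset.image U Finset.univ, ‖T.ι (w * x - x * w)‖ ^ 2) :=
          mul_le_mul_of_nonneg_left h6 (le_max_right _ _)
      _ = _ := by ring

section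
variable {G : Type v} [Group G] [TopologicalSpace G] [IsTopologicalGroup G]
  [SecondCountableTopology G] [LocallyCompactSpace G] [T2Space G] [NoncompactSpace G]
  [MeasurableSpace G] [BorelSpace G] (μ : Measure G) [μ.IsHaarMeasure]
  {M : VonNeumannAlgebra H} {α : G → (H →L[ℂ] H) → (H →L[ℂ] H)}

/-- II₁ factors with spectral gap: every pointwise outer action of a noncompact amenable group
has an ergodic cocycle perturbation -/
theorem gap_theorem [SeparableSpace H] (hM : IsII1Factor M) (hgap : HasSpectralGap M)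
    (hα : IsAction M α) (hG : ErgLC.FolnerCondition μ) (hout : IsPointwiseOuter M α) :
    ∃ v : G → (H →L[ℂ] H), IsCocycle M α v ∧ PerturbationIsErgodic M α v := by
  classical
  obtain ⟨ξ, h, n, u, C, hu, hC⟩ := hgap
  obtain ⟨U, hU⟩ : ∃ U : Fin n → Alg M, U = fun i => ⟨u i, (hu i).1⟩ := ⟨_, rfl⟩
  have hUl : ∀ i, star (U i) * U i = 1 := fun i => by rw [hU]; exact Subtype.ext (hu i).2.1
  have hUr : ∀ i, U i * star (U i) = 1 := fun i => by rw [hU]; exact Subtype.ext (hu i).2.2
  have hg := (trAlgOf M ξ h).gap_of_family U hUl hUr C (fun x => by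
    obtain ⟨c, hc⟩ := hC x x.2
    refine ⟨c, ?_⟩
    have h1 := trAlgOf_norm_sq M ξ h (x - c • (1 : Alg M))
    have h2 : ∀ i, ‖(trAlgOf M ξ h).ι (U i * x - x * U i)‖ ^ 2
        = ∑' k, ‖(u i * (x : H →L[ℂ] H) - (x : H →L[ℂ] H) * u i) (ξ k)‖ ^ 2 := fun i => by
      rw [trAlgOf_norm_sq, hU]
      rfl
    rw [h1, Finset.sum_congr rfl fun i _ => h2 i]
    exact hc)
  refine exists_of_key ξ h hα (actOf ξ h hM.factor hα) (fun g x => rfl) ?_
  refine TrAct.key_of_gap μ ?_ hg (reiter_of_folner μ hG)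
  rintro g hg1 ⟨v, hv1, hv2, hv3⟩
  refine hout g hg1 ⟨star (v : H →L[ℂ] H), star_mem v.2, ?_, ?_, ?_⟩
  · rw [star_star]
    exact congrArg Subtype.val hv2
  · rw [star_star]
    exact congrArg Subtype.val hv1
  · intro x hx
    rw [star_star]
    have h1 : (⟨x, hx⟩ : Alg M) * v = v * actHom hα g ⟨x, hx⟩ := hv3 ⟨x, hx⟩
    have h2 : actHom hα g ⟨x, hx⟩ = star v * (⟨x, hx⟩ : Alg M) * v := by
      rw [mul_assoc, h1, ← mul_assoc, hv1, one_mul]
    exact congrArg Subtype.val h2

/-- the same for strictly outer actions -/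
theorem gap_theorem_strict [SeparableSpace H] (hM : IsII1Factor M) (hgap : HasSpectralGap M)
    (hα : IsAction M α) (hG : ErgLC.FolnerCondition μ) (hout : IsStrictlyOuter μ M α) :
    ∃ v : G → (H →L[ℂ] H), IsCocycle M α v ∧ PerturbationIsErgodic M α v := by
  haveI : Nontrivial H := by
    by_contra hn
    rw [not_nontrivial_iff_subsingleton] at hn
    refine hM.infinite_dimensional ?_
    haveI : Subsingleton (H →L[ℂ] H) := ⟨fun a b => by ext x; exact Subsingleton.elim _ _⟩
    haveI : Subsingleton M.toStarSubalgebra := ⟨fun a b => Subtype.ext (Subsingleton.elim _ _)⟩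
    infer_instance
  exact gap_theorem μ hM hgap hα hG (hout.isPointwiseOuter μ hα)

end

end Pool.Agent.AbCoc
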