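import Pool.Agent.Lib_MP_418a80_ab.Cond

/-!
# Spectral gap, part 1: twisted averages over symmetric systems of unitaries
-/

set_option autoImplicit false
set_option linter.unusedVariables false
set_option linter.unusedSectionVars false

open Topology Filter MeasureTheory

namespace Pool.Agent.AbCoc

universe u v w

/-- a finite symmetric system of unitaries containing `1` -/
structure USys (A : Type u) [CStarAlgebra A] where
  J : Type
  fin : Fintype J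
  u : J → A
  sl : ∀ i, star (u i) * u i = 1
  sr : ∀ i, u i * star (u i) = 1
  σ : Equiv.Perm J
  hσ : ∀ i, u (σ i) = star (u i)
  one : ∃ i, u i = 1

attribute [instance] USys.fin

/-- the number of unitaries -/
def USys.m {A : Type u} [CStarAlgebra A] (X : USys A) : ℕ := Fintype.card X.J

section
variable {A : Type u} [CStarAlgebra A]

theorem USys.m_pos (X : USys A) : 0 < X.m := by
  obtain ⟨i, _⟩ := X.one
  exact Fintype.card_pos_iff.2 ⟨i⟩

/-- the twisted average `z ↦ m⁻¹ ∑ u_i* z f(u_i)` -/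
noncomputable def USys.tw (X : USys A) (f : A →⋆ₐ[ℂ] A) : Module.End ℂ A :=
  (X.m : ℂ)⁻¹ • ∑ i, (LinearMap.mulLeft ℂ (star (X.u i))).comp (LinearMap.mulRight ℂ (f (X.u i)))

theorem USys.tw_apply (X : USys A) (f : A →⋆ₐ[ℂ] A) (z : A) :
    X.tw f z = (X.m : ℂ)⁻¹ • ∑ i, star (X.u i) * z * f (X.u i) := by
  unfold USys.tw
  rw [LinearMap.smul_apply, LinearMap.sum_apply]
  congr 1
  refine Finset.sum_congr rfl fun i _ => ?_
  rw [LinearMap.comp_apply, LinearMap.mulLeft_apply, LinearMap.mulRight_apply, mul_assoc]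

variable {K : Type v} [NormedAddCommGroup K] [InnerProductSpace ℂ K] (T : TrAlg A K)

theorem USys.norm_term (X : USys A) (f : A →⋆ₐ[ℂ] A) (z : A) (i : X.J) :
    ‖T.ι (star (X.u i) * z * f (X.u i))‖ = ‖T.ι z‖ := by
  rw [T.norm_mul_unitary _ (by rw [← map_star, ← map_mul, X.sr, map_one]),
    T.norm_unitary_mul _ (by rw [star_star, X.sr])]

theorem USys.norm_tw_le (X : USys A) (f : A →⋆ₐ[ℂ] A) (z : A) :
    ‖T.ι (X.tw f z)‖ ≤ ‖T.ι z‖ := by
  have hm : (0 : ℝ) < X.m := Nat.cast_pos.2 X.m_pos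
  rw [X.tw_apply, map_smul, norm_smul, norm_inv, Complex.norm_natCast, map_sum]
  refine (mul_le_mul_of_nonneg_left (norm_sum_le _ _) (inv_nonneg.2 hm.le)).trans ?_
  simp only [X.norm_term T]
  rw [Finset.sum_const, Finset.card_univ, nsmul_eq_mul, ← mul_assoc]
  change ((X.m : ℝ)⁻¹ * (X.m : ℝ)) * ‖T.ι z‖ ≤ ‖T.ι z‖
  rw [inv_mul_cancel₀ hm.ne', one_mul]

/-- the twisted average is symmetric -/
theorem USys.inner_tw (X : USys A) (f : A →⋆ₐ[ℂ] A) (z y : A) :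
    inner ℂ (T.ι (X.tw f z)) (T.ι y) = inner ℂ (T.ι z) (T.ι (X.tw f y)) := by
  rw [X.tw_apply, X.tw_apply, map_smul, map_smul, inner_smul_left, inner_smul_right, map_sum,
    map_sum, sum_inner, inner_sum]
  have h1 : (starRingEnd ℂ) ((X.m : ℂ)⁻¹) = (X.m : ℂ)⁻¹ := by
    rw [map_inv₀, Complex.conj_natCast]
  rw [h1]
  congr 1
  rw [← Equiv.sum_comp X.σ fun i => inner ℂ (T.ι z) (T.ι (star (X.u i) * y * f (X.u i)))]
  refine Finset.sum_congr rfl fun i _ => ?_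
  rw [X.hσ, star_star, T.right, map_star, T.left, star_star, mul_assoc]

theorem USys.norm_pow_le (X : USys A) (f : A →⋆ₐ[ℂ] A) (n : ℕ) (z : A) :
    ‖T.ι ((X.tw f ^ n) z)‖ ≤ ‖T.ι z‖ := by
  induction n with
  | zero => rw [pow_zero, Module.End.one_apply]
  | succ n ih =>
    rw [pow_succ', Module.End.mul_apply]
    exact (X.norm_tw_le T f _).trans ih

theorem USys.inner_pow (X : USys A) (f : A →⋆ₐ[ℂ] A) (n : ℕ) (z y : A) :
    inner ℂ (T.ι ((X.tw f ^ n) z)) (T.ι y) = inner ℂ (T.ι z) (T.ι ((X.tw f ^ n) y)) := by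
  induction n generalizing y with
  | zero => rw [pow_zero, Module.End.one_apply, Module.End.one_apply]
  | succ n ih =>
    rw [pow_succ', Module.End.mul_apply, X.inner_tw, ih, ← Module.End.mul_apply, ← pow_succ]
    rw [Module.End.mul_apply, ← Module.End.mul_apply, ← pow_succ']

/-- log-convexity of the norms of the iterates -/
theorem USys.logconv (X : USys A) (f : A →⋆ₐ[ℂ] A) (n : ℕ) (z : A) :
    ‖T.ι ((X.tw f ^ (n + 1)) z)‖ ^ 2
      ≤ ‖T.ι ((X.tw f ^ n) z)‖ * ‖T.ι ((X.tw f ^ (n + 2)) z)‖ := by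
  have h1 : inner ℂ (T.ι ((X.tw f ^ (n + 1)) z)) (T.ι ((X.tw f ^ (n + 1)) z))
      = inner ℂ (T.ι ((X.tw f ^ n) z)) (T.ι ((X.tw f ^ (n + 2)) z)) := by
    have h3 : ∀ k : ℕ, (X.tw f ^ (k + 1)) z = X.tw f ((X.tw f ^ k) z) := fun k => by
      rw [pow_succ', Module.End.mul_apply]
    have h4 : (X.tw f ^ (n + 2)) z = X.tw f ((X.tw f ^ (n + 1)) z) := h3 (n + 1)
    rw [h4, h3 n, X.inner_tw]
  have h2 : ‖T.ι ((X.tw f ^ (n + 1)) z)‖ ^ 2
      = (inner ℂ (T.ι ((X.tw f ^ (n + 1)) z)) (T.ι ((X.tw f ^ (n + 1)) z))).re := by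
    rw [inner_self_eq_norm_sq_to_K]
    norm_cast
  rw [h2, h1]
  exact (Complex.re_le_norm _).trans (norm_inner_le_norm _ _)

end

/-- an alternative for log-convex sequences -/
theorem logconv_alt (a : ℕ → ℝ) (h0 : ∀ n, 0 ≤ a n) (hc : ∀ n, a (n + 1) ^ 2 ≤ a n * a (n + 2))
    (q : ℝ) (hq : 0 ≤ q) (n : ℕ) : a n ≤ q ^ n * a 0 ∨ q * a n ≤ a (n + 1) := by
  induction n with
  | zero => left; rw [pow_zero, one_mul]
  | succ n ih =>
    by_cases h1 : q * a n ≤ a (n + 1)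
    · rcases (h0 (n + 1)).eq_or_lt with h2 | h2
      · left
        rw [← h2]
        have := h0 0
        positivity
      · right
        have h3 : q * a (n + 1) * a (n + 1) ≤ a (n + 2) * a (n + 1) := by
          have h4 := mul_le_mul_of_nonneg_left (hc n) hq
          have h5 := mul_le_mul_of_nonneg_right h1 (h0 (n + 2))
          nlinarith
        exact le_of_mul_le_mul_right h3 h2
    · left
      rcases ih with h2 | h2
      · rw [pow_succ', mul_assoc]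
        push Not at h1
        exact h1.le.trans (mul_le_mul_of_nonneg_left h2 hq)
      · exact absurd h2 h1

theorem logconv_lower (a : ℕ → ℝ) (h0 : ∀ n, 0 ≤ a n) (hc : ∀ n, a (n + 1) ^ 2 ≤ a n * a (n + 2))
    (h1 : a 0 = 1) (n : ℕ) : a 1 ^ n ≤ a n := by
  have key : ∀ n, a 1 * a n ≤ a (n + 1) := by
    intro n
    induction n with
    | zero => rw [h1, mul_one]
    | succ n ih =>
      rcases (h0 (n + 1)).eq_or_lt with h2 | h2
      · rw [← h2, mul_zero]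
        exact h0 _
      · have h3 : a 1 * a (n + 1) * a (n + 1) ≤ a (n + 2) * a (n + 1) := by
          have h4 := mul_le_mul_of_nonneg_left (hc n) (h0 1)
          have h5 := mul_le_mul_of_nonneg_right ih (h0 (n + 2))
          nlinarith
        exact le_of_mul_le_mul_right h3 h2
  induction n with
  | zero => rw [pow_zero, h1]
  | succ n ih =>
    rw [pow_succ']
    exact (mul_le_mul_of_nonneg_left ih (h0 1)).trans (key n)

section
variable {A : Type u} [CStarAlgebra A] {K : Type v} [NormedAddCommGroup K]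
  [InnerProductSpace ℂ K] (T : TrAlg A K)

theorem TrAlg.norm_τ_le (z : A) : ‖T.τ z‖ ≤ ‖T.ι z‖ := by
  unfold TrAlg.τ
  refine (norm_inner_le_norm _ _).trans ?_
  rw [T.norm_one, one_mul]

theorem TrAlg.norm_ι_scalar (c : ℂ) : ‖T.ι (c • (1 : A))‖ = ‖c‖ := by
  rw [map_smul, norm_smul, T.norm_one, mul_one]

/-- the distance to the scalars is bounded by the norm -/
theorem TrAlg.norm_sub_τ_le (z : A) : ‖T.ι (z - T.τ z • (1 : A))‖ ≤ ‖T.ι z‖ := by
  have h1 : ‖T.ι (z - T.τ z • (1 : A))‖ ^ 2 + ‖T.τ z‖ ^ 2 = ‖T.ι z‖ ^ 2 := by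
    have h2 : T.ι z = T.ι (z - T.τ z • (1 : A)) + T.ι (T.τ z • (1 : A)) := by
      rw [← map_add, sub_add_cancel]
    have h3 : inner ℂ (T.ι (z - T.τ z • (1 : A))) (T.ι (T.τ z • (1 : A))) = 0 := by
      rw [map_smul T.ι (T.τ z) 1, inner_smul_right]
      have h4 : inner ℂ (T.ι (z - T.τ z • (1 : A))) (T.ι 1) = (0 : ℂ) := by
        rw [← inner_conj_symm]
        have h5 : inner ℂ (T.ι 1) (T.ι (z - T.τ z • (1 : A))) = (0 : ℂ) := by
          change T.τ (z - T.τ z • (1 : A)) = 0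
          rw [T.τ_sub, T.τ_smul, T.τ_one, mul_one, sub_self]
        rw [h5, map_zero]
      rw [h4, mul_zero]
    have h6 := norm_add_sq_eq_norm_sq_add_norm_sq_of_inner_eq_zero _ _ h3
    rw [← h2, T.norm_ι_scalar] at h6
    rw [sq, sq, sq]
    exact h6.symm
  have h2 : ‖T.ι (z - T.τ z • (1 : A))‖ ^ 2 ≤ ‖T.ι z‖ ^ 2 := by
    have := sq_nonneg ‖T.τ z‖
    linarith
  exact (pow_le_pow_iff_left₀ (norm_nonneg _) (norm_nonneg _) two_ne_zero).1 h2

/-- the near estimate: if almost eigenvectors are almost scalar then the iterates are almost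
scalar -/
theorem USys.near_iter (X : USys A) (f : A →⋆ₐ[ℂ] A) (δ q : ℝ) (hδ0 : 0 ≤ δ) (hδ : δ ≤ 1 / 2)
    (hq : 0 ≤ q)
    (hnear : ∀ z : A, q * ‖T.ι z‖ ≤ ‖T.ι (X.tw f z)‖ → ‖T.ι (z - T.τ z • (1 : A))‖ ≤ δ * ‖T.ι z‖)
    (n : ℕ) (y : A) :
    ‖T.ι ((X.tw f ^ n) y - (T.τ y * T.τ ((X.tw f ^ n) 1)) • (1 : A))‖
      ≤ 6 * (δ * ‖T.τ ((X.tw f ^ n) 1)‖ + q ^ n) * ‖T.ι y‖ := by
  have key : ∀ y : A, ‖T.ι ((X.tw f ^ n) y - T.τ ((X.tw f ^ n) y) • (1 : A))‖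
      ≤ δ * ‖T.ι ((X.tw f ^ n) y)‖ + q ^ n * ‖T.ι y‖ := by
    intro y
    have h1 := logconv_alt (fun n => ‖T.ι ((X.tw f ^ n) y)‖) (fun _ => norm_nonneg _)
      (fun n => X.logconv T f n y) q hq n
    have h2 : (0 : ℝ) ≤ q ^ n * ‖T.ι y‖ := by positivity
    have h3 : 0 ≤ δ * ‖T.ι ((X.tw f ^ n) y)‖ := by positivity
    rcases h1 with h1 | h1
    · rw [pow_zero, Module.End.one_apply] at h1
      exact ((T.norm_sub_τ_le _).trans h1).trans (by linarith)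
    · rw [pow_succ', Module.End.mul_apply] at h1
      exact (hnear _ h1).trans (by linarith)
  obtain ⟨ρ, hρ⟩ : ∃ ρ : ℂ, ρ = T.τ ((X.tw f ^ n) 1) := ⟨_, rfl⟩
  obtain ⟨Q, hQ⟩ : ∃ Q : ℝ, Q = q ^ n := ⟨_, rfl⟩
  have hQ0 : 0 ≤ Q := by rw [hQ]; positivity
  rw [← hρ, ← hQ]
  have k1 := key 1
  have ky := key y
  rw [← hρ, ← hQ, T.norm_one, mul_one] at k1
  rw [← hQ] at ky
  -- the norm of `T^n 1`
  obtain ⟨b, hb⟩ : ∃ b : ℝ, b = ‖T.ι ((X.tw f ^ n) 1)‖ := ⟨_, rfl⟩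
  obtain ⟨c, hc⟩ : ∃ c : ℝ, c = ‖T.ι ((X.tw f ^ n) y)‖ := ⟨_, rfl⟩
  rw [← hb] at k1
  rw [← hc] at ky
  have hb0 : 0 ≤ b := by rw [hb]; positivity
  have hc0 : 0 ≤ c := by rw [hc]; positivity
  have e1 : b ≤ ‖ρ‖ + (δ * b + Q) := by
    have h1 : T.ι ((X.tw f ^ n) 1) = T.ι (ρ • (1 : A)) + T.ι ((X.tw f ^ n) 1 - ρ • (1 : A)) := by
      rw [← map_add]; congr 1; abel
    rw [hb, h1]
    refine (norm_add_le _ _).trans ?_
    rw [T.norm_ι_scalar, ← h1, ← hb]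
    linarith
  have e1' : b ≤ 2 * (‖ρ‖ + Q) := by nlinarith
  -- `τ(T^n y)`
  have e2 : T.τ ((X.tw f ^ n) y) = inner ℂ (T.ι ((X.tw f ^ n) 1)) (T.ι y) := by
    rw [X.inner_pow]
    rfl
  have e3 : ‖T.τ ((X.tw f ^ n) y)‖ ≤ b * ‖T.ι y‖ := by
    rw [e2, hb]
    exact norm_inner_le_norm _ _
  have e4 : c ≤ ‖T.τ ((X.tw f ^ n) y)‖ + (δ * c + Q * ‖T.ι y‖) := by
    have h1 : T.ι ((X.tw f ^ n) y) = T.ι (T.τ ((X.tw f ^ n) y) • (1 : A))
        + T.ι ((X.tw f ^ n) y - T.τ ((X.tw f ^ n) y) • (1 : A)) := by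
      rw [← map_add]; congr 1; abel
    rw [hc, h1]
    refine (norm_add_le _ _).trans ?_
    rw [T.norm_ι_scalar, ← h1, ← hc]
    linarith
  have e5 : c ≤ 2 * (b + Q) * ‖T.ι y‖ := by
    have : 0 ≤ ‖T.ι y‖ := norm_nonneg _
    nlinarith
  -- `ρ` is real
  have hconj : (starRingEnd ℂ) ρ = ρ := by
    have h1 : T.τ ((X.tw f ^ n) 1) = inner ℂ (T.ι ((X.tw f ^ n) 1)) (T.ι 1) := by
      rw [X.inner_pow]
      rfl
    conv_lhs => rw [hρ, h1]
    rw [inner_conj_symm, hρ]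
    rfl
  have e6 : ‖T.τ ((X.tw f ^ n) y) - T.τ y * ρ‖ ≤ (δ * b + Q) * ‖T.ι y‖ := by
    have h1 : T.τ ((X.tw f ^ n) y) - T.τ y * ρ
        = inner ℂ (T.ι ((X.tw f ^ n) 1 - ρ • (1 : A))) (T.ι y) := by
      rw [map_sub T.ι, inner_sub_left, ← e2, map_smul T.ι ρ, inner_smul_left, hconj, mul_comm]
      rfl
    rw [h1]
    exact (norm_inner_le_norm _ _).trans (mul_le_mul_of_nonneg_right k1 (norm_nonneg _))
  have e7 : T.ι ((X.tw f ^ n) y - (T.τ y * ρ) • (1 : A))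
      = T.ι ((X.tw f ^ n) y - T.τ ((X.tw f ^ n) y) • (1 : A))
        + T.ι ((T.τ ((X.tw f ^ n) y) - T.τ y * ρ) • (1 : A)) := by
    rw [← map_add, sub_smul]
    congr 1
    abel
  rw [e7]
  refine (norm_add_le _ _).trans ?_
  rw [T.norm_ι_scalar]
  have hy : 0 ≤ ‖T.ι y‖ := norm_nonneg _
  have f1 : δ * c ≤ δ * (2 * (b + Q) * ‖T.ι y‖) := mul_le_mul_of_nonneg_left e5 hδ0
  have f2 : δ * b ≤ δ * (2 * (‖ρ‖ + Q)) := mul_le_mul_of_nonneg_left e1' hδ0
  have f3 : δ * (2 * (b + Q)) + Q + (δ * b + Q) ≤ 6 * (δ * ‖ρ‖ + Q) := by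
    have g1 : δ * Q ≤ 1 / 2 * Q := mul_le_mul_of_nonneg_right hδ hQ0
    nlinarith [norm_nonneg ρ]
  calc ‖T.ι ((X.tw f ^ n) y - T.τ ((X.tw f ^ n) y) • (1 : A))‖
        + ‖T.τ ((X.tw f ^ n) y) - T.τ y * ρ‖
      ≤ (δ * c + Q * ‖T.ι y‖) + (δ * b + Q) * ‖T.ι y‖ := add_le_add ky e6
    _ ≤ (δ * (2 * (b + Q)) + Q + (δ * b + Q)) * ‖T.ι y‖ := by
        have : (δ * (2 * (b + Q)) + Q + (δ * b + Q)) * ‖T.ι y‖
            = δ * (2 * (b + Q) * ‖T.ι y‖) + Q * ‖T.ι y‖ + (δ * b + Q) * ‖T.ι y‖ := by ring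
        rw [this]
        linarith
    _ ≤ 6 * (δ * ‖ρ‖ + Q) * ‖T.ι y‖ := mul_le_mul_of_nonneg_right f3 hy

/-- the far estimate -/
theorem USys.far_iter (X : USys A) (f : A →⋆ₐ[ℂ] A) (q : ℝ) (hq : 0 ≤ q)
    (hfar : ∀ z : A, ‖T.ι (X.tw f z)‖ ≤ q * ‖T.ι z‖) (n : ℕ) (y : A) :
    ‖T.ι ((X.tw f ^ n) y)‖ ≤ q ^ n * ‖T.ι y‖ := by
  induction n with
  | zero => rw [pow_zero, pow_zero, Module.End.one_apply, one_mul]
  | succ n ih =>
    rw [pow_succ' (X.tw f), Module.End.mul_apply, pow_succ', mul_assoc]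
    exact (hfar _).trans (mul_le_mul_of_nonneg_left ih hq)

end

section
variable {A : Type u} [CStarAlgebra A]

/-- words: the powers of the twisted averages come from finite families -/
theorem USys.exists_words (X : USys A) (n : ℕ) :
    ∃ (J : Type) (_ : Fintype J) (x : J → A), ∀ (f : A →⋆ₐ[ℂ] A) (z : A),
      ∑ j, star (x j) * z * f (x j) = (X.tw f ^ n) z := by
  induction n with
  | zero =>
    refine ⟨Unit, inferInstance, fun _ => 1, fun f z => ?_⟩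
    rw [pow_zero, Module.End.one_apply]
    simp
  | succ n ih =>
    obtain ⟨J, hJ, x, hx⟩ := ih
    have hm : (0 : ℝ) < X.m := Nat.cast_pos.2 X.m_pos
    obtain ⟨r, hr⟩ : ∃ r : ℝ, r = (Real.sqrt X.m)⁻¹ := ⟨_, rfl⟩
    have hr2 : (r : ℂ) * r = (X.m : ℂ)⁻¹ := by
      rw [← Complex.ofReal_mul, hr, ← mul_inv, Real.mul_self_sqrt hm.le, Complex.ofReal_inv,
        Complex.ofReal_natCast]
    refine ⟨J × X.J, inferInstance, fun p => (r : ℂ) • (x p.1 * X.u p.2), fun f z => ?_⟩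
    rw [pow_succ', Module.End.mul_apply, ← hx f z, X.tw_apply, Fintype.sum_prod_type_right,
      Finset.smul_sum]
    refine Finset.sum_congr rfl fun i _ => ?_
    rw [Finset.mul_sum, Finset.sum_mul, Finset.smul_sum]
    refine Finset.sum_congr rfl fun j _ => ?_
    rw [star_smul, map_smul, smul_mul_assoc, smul_mul_assoc, mul_smul_comm, smul_smul, map_mul,
      star_mul]
    have h1 : star (r : ℂ) = (r : ℂ) := Complex.conj_ofReal r
    have h2 : star (X.u i) * star (x j) * z * (f (x j) * f (X.u i))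
        = star (X.u i) * (star (x j) * z * f (x j)) * f (X.u i) := by
      simp only [mul_assoc]
    rw [h1, hr2]
    exact congrArg ((X.m : ℂ)⁻¹ • ·) h2

end

end Pool.Agent.AbCoc
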