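import Pool.Agent.Lib_MP_418a80_gap.Gap1
import Pool.Agent.Lib_MP_418a80_hyp.PowersStormer

/-!
# Spectral gap, part 2: unitarisation of almost intertwiners
-/

set_option autoImplicit false
set_option linter.unusedVariables false
set_option linter.unusedSectionVars false

open Topology Filter MeasureTheory

namespace Pool.Agent.AbCoc

universe u v w

/-- spectral gap: almost central elements are almost scalar in the `2`-norm -/
structure TrAlg.Gap {A : Type u} [CStarAlgebra A] {K : Type v} [NormedAddCommGroup K]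
    [InnerProductSpace ℂ K] (T : TrAlg A K) (F0 : Finset A) (C0 : ℝ) : Prop where
  nonneg : 0 ≤ C0
  unit : ∀ u ∈ F0, star u * u = 1 ∧ u * star u = 1
  gap : ∀ x : A, ‖T.ι (x - T.τ x • (1 : A))‖ ^ 2 ≤ C0 * ∑ u ∈ F0, ‖T.ι (u * x - x * u)‖ ^ 2

section
variable {A : Type u} [CStarAlgebra A] {K : Type v} [NormedAddCommGroup K]
  [InnerProductSpace ℂ K] (T : TrAlg A K)

/-- the constant of the gap -/
noncomputable def gapC (F0 : Finset A) (C0 : ℝ) : ℝ := Real.sqrt (C0 * F0.card)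

variable {T}

theorem TrAlg.Gap.le {F0 : Finset A} {C0 : ℝ} (hg : T.Gap F0 C0) (x : A) (η : ℝ) (hη : 0 ≤ η)
    (hx : ∀ u ∈ F0, ‖T.ι (u * x - x * u)‖ ≤ η) :
    ‖T.ι (x - T.τ x • (1 : A))‖ ≤ gapC F0 C0 * η := by
  have h1 : ∑ u ∈ F0, ‖T.ι (u * x - x * u)‖ ^ 2 ≤ F0.card * η ^ 2 := by
    calc ∑ u ∈ F0, ‖T.ι (u * x - x * u)‖ ^ 2 ≤ ∑ u ∈ F0, η ^ 2 :=
          Finset.sum_le_sum fun u hu => pow_le_pow_left₀ (norm_nonneg _) (hx u hu) 2
      _ = F0.card * η ^ 2 := by rw [Finset.sum_const, nsmul_eq_mul]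
  have h2 : ‖T.ι (x - T.τ x • (1 : A))‖ ^ 2 ≤ (gapC F0 C0 * η) ^ 2 := by
    refine (hg.gap x).trans ((mul_le_mul_of_nonneg_left h1 hg.nonneg).trans (le_of_eq ?_))
    rw [mul_pow, gapC, Real.sq_sqrt (mul_nonneg hg.nonneg (Nat.cast_nonneg _))]
    ring
  exact (pow_le_pow_iff_left₀ (norm_nonneg _)
    (mul_nonneg (Real.sqrt_nonneg _) hη) two_ne_zero).1 h2

variable (T)

/-- `|u z - z v| = |u z v* - z|` for unitaries -/
theorem TrAlg.norm_conj_sub (z a b : A) (hb : b * star b = 1) (hb' : star b * b = 1) :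
    ‖T.ι (a * z * star b - z)‖ = ‖T.ι (a * z - z * b)‖ := by
  have h1 : a * z * star b - z = (a * z - z * b) * star b := by
    rw [sub_mul, mul_assoc z b (star b), hb, mul_one]
  rw [h1, T.norm_mul_unitary _ (by rw [star_star, hb'])]

theorem TrAlg.norm_swap (z a b : A) (ha : a * star a = 1) (ha' : star a * a = 1)
    (hb : b * star b = 1) (hb' : star b * b = 1) :
    ‖T.ι (b * star z - star z * a)‖ = ‖T.ι (a * z - z * b)‖ := by
  have h1 : ‖T.ι (b * star z - star z * a)‖ = ‖T.ι (star (b * star z - star z * a))‖ :=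
    (T.norm_star _).symm
  have h2 : star (b * star z - star z * a) = z * star b - star a * z := by
    rw [star_sub, star_mul, star_mul, star_star]
  have h3 : a * (z * star b - star a * z) * b = a * z - z * b := by
    rw [mul_sub, ← mul_assoc a (star a) z, ha, one_mul, sub_mul, mul_assoc a, mul_assoc z,
      hb', mul_one]
  rw [h1, h2, ← h3, T.norm_mul_unitary _ hb, T.norm_unitary_mul _ ha']

theorem TrAlg.norm_sq_one_sub (w : A) (hw : ‖w‖ ≤ 1) :
    ‖T.ι (1 - star w * w)‖ ^ 2 ≤ 1 - ‖T.ι w‖ ^ 2 := by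
  have h1 : ‖T.ι (1 - star w * w)‖ ^ 2
      = 1 - 2 * ‖T.ι w‖ ^ 2 + ‖T.ι (star w * w)‖ ^ 2 := by
    rw [map_sub, @norm_sub_sq ℂ, T.norm_one, T.norm_sq w]
    simp only [RCLike.re_to_complex]
    have h2 : inner ℂ (T.ι 1) (T.ι (star w * w)) = T.τ (star w * w) := rfl
    rw [h2]
    ring
  have h2 : ‖T.ι (star w * w)‖ ≤ ‖T.ι w‖ := by
    refine (T.mul_le _ _).trans ?_
    rw [_root_.norm_star]
    calc ‖w‖ * ‖T.ι w‖ ≤ 1 * ‖T.ι w‖ := mul_le_mul_of_nonneg_right hw (norm_nonneg _)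
      _ = ‖T.ι w‖ := one_mul _
  have h3 := pow_le_pow_left₀ (norm_nonneg _) h2 2
  rw [h1]
  linarith

end

attribute [local instance] CStarAlgebra.spectralOrder CStarAlgebra.spectralOrderedRing

section
variable {A : Type u} [CStarAlgebra A] {K : Type v} [NormedAddCommGroup K]
  [InnerProductSpace ℂ K] {T : TrAlg A K}

/-- almost intertwiners of `2`-norm one are close to contractions -/
theorem TrAlg.Gap.unitarise {F0 : Finset A} {C0 : ℝ} (hg : T.Gap F0 C0) (f : A →⋆ₐ[ℂ] A)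
    (z : A) (hz : ‖T.ι z‖ = 1) (d ε : ℝ) (hd0 : 0 ≤ d) (hε : 0 < ε)
    (hd : ∀ u ∈ F0, ‖T.ι (u * z - z * f u)‖ ≤ d) :
    ∃ w : A, ‖w‖ ≤ 1 ∧ ‖T.ι (z - w)‖ ≤ ε + gapC F0 C0 * Real.sqrt (2 * d) := by
  obtain ⟨h, hh⟩ : ∃ h : A, h = CFC.sqrt (z * star z) := ⟨_, rfl⟩
  have hpos : 0 ≤ h := by rw [hh]; exact CFC.sqrt_nonneg _
  have hsa : IsSelfAdjoint h := IsSelfAdjoint.of_nonneg hpos
  have hsq : h * h = z * star z := by
    rw [hh]
    exact CFC.sqrt_mul_sqrt_self _ (mul_star_self_nonneg z)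
  have hhn : ‖T.ι h‖ = 1 := by
    have h1 : ‖T.ι h‖ ^ 2 = ‖T.ι z‖ ^ 2 := by
      rw [T.norm_sq, hsa.star_eq, hsq, T.τ_mul_comm, ← T.norm_sq]
    rw [hz] at h1
    exact (pow_left_inj₀ (norm_nonneg _) zero_le_one two_ne_zero).1 h1
  -- commutation with `F0`
  have hcomm : ∀ u ∈ F0, ‖T.ι (u * h - h * u)‖ ≤ Real.sqrt (2 * d) := by
    intro u hu
    obtain ⟨hu1, hu2⟩ := hg.unit u hu
    have hf1 : f u * star (f u) = 1 := by rw [← map_star, ← map_mul, hu2, map_one]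
    have hf2 : star (f u) * f u = 1 := by rw [← map_star, ← map_mul, hu1, map_one]
    have hps : ‖T.ι (u * h * star u - h)‖ ^ 2 ≤ 2 * d := by
      refine T.powers_stormer (star_right_conjugate_nonneg hpos u) hpos fun y hy => ?_
      obtain ⟨z', hz'⟩ : ∃ z' : A, z' = u * z * star (f u) := ⟨_, rfl⟩
      have hz'n : ‖T.ι z'‖ = 1 := by
        rw [hz', T.norm_mul_unitary _ (by rw [star_star, hf2]), T.norm_unitary_mul _ hu1, hz]
      have hdz : ‖T.ι (z' - z)‖ ≤ d := by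
        rw [hz', T.norm_conj_sub z u (f u) hf1 hf2]
        exact hd u hu
      have e1 : u * h * star u * (u * h * star u) = z' * star z' := by
        have g1 : u * h * star u * (u * h * star u) = u * (h * ((star u * u) * h)) * star u := by
          noncomm_ring
        have g2 : z' * star z' = u * (z * ((star (f u) * f u) * star z)) * star u := by
          rw [hz', star_mul, star_mul, star_star]
          noncomm_ring
        rw [g1, g2, hu1, hf2, one_mul, one_mul, hsq]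
      have e2 : (u * h * star u * (u * h * star u) - h * h) * y
          = (z' - z) * (star z' * y) + z * (star (z' - z) * y) := by
        rw [e1, hsq, star_sub]
        noncomm_ring
      have e3 : ‖T.τ ((z' - z) * (star z' * y))‖ ≤ d := by
        have g1 : T.τ ((z' - z) * (star z' * y)) = inner ℂ (T.ι (star (z' - z))) (T.ι (star z' * y)) := by
          rw [T.inner_eq_τ, star_star]
        rw [g1]
        refine (norm_inner_le_norm _ _).trans ?_
        rw [T.norm_star]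
        have g2 : ‖T.ι (star z' * y)‖ ≤ 1 := by
          refine (T.mul_le' _ _).trans ?_
          rw [T.norm_star, hz'n, one_mul]
          exact hy
        calc ‖T.ι (z' - z)‖ * ‖T.ι (star z' * y)‖ ≤ d * 1 :=
              mul_le_mul hdz g2 (norm_nonneg _) hd0
          _ = d := mul_one d
      have e4 : ‖T.τ (z * (star (z' - z) * y))‖ ≤ d := by
        have g1 : T.τ (z * (star (z' - z) * y)) = inner ℂ (T.ι (z' - z)) (T.ι (y * z)) := by
          rw [T.inner_eq_τ, T.τ_mul_comm, mul_assoc]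
        rw [g1]
        refine (norm_inner_le_norm _ _).trans ?_
        have g2 : ‖T.ι (y * z)‖ ≤ 1 := by
          refine (T.mul_le _ _).trans ?_
          rw [hz, mul_one]
          exact hy
        calc ‖T.ι (z' - z)‖ * ‖T.ι (y * z)‖ ≤ d * 1 :=
              mul_le_mul hdz g2 (norm_nonneg _) hd0
          _ = d := mul_one d
      rw [e2, T.τ_add]
      refine (norm_add_le _ _).trans ?_
      linarith
    have e5 : u * h - h * u = (u * h * star u - h) * u := by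
      rw [sub_mul, mul_assoc (u * h), hu1, mul_one]
    rw [e5, T.norm_mul_unitary _ hu2]
    exact Real.le_sqrt_of_sq_le hps
  have hgap := hg.le h _ (Real.sqrt_nonneg _) hcomm
  -- the contraction
  have hcont1 : ContinuousOn (fun t : ℝ => (t + ε)⁻¹) (spectrum ℝ h) := by
    refine ContinuousOn.inv₀ (continuousOn_id.add continuousOn_const) fun t ht => ?_
    have := spectrum_nonneg_of_nonneg hpos ht
    positivity
  obtain ⟨k, hk⟩ : ∃ k : A, k = cfc (fun t : ℝ => (t + ε)⁻¹) h := ⟨_, rfl⟩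
  have hksa : IsSelfAdjoint k := by rw [hk]; exact cfc_predicate _ _
  have hkh : k * h = cfc (fun t : ℝ => (t + ε)⁻¹ * t) h := by
    rw [cfc_mul (fun t : ℝ => (t + ε)⁻¹) (fun t : ℝ => t) h hcont1 continuousOn_id, cfc_id' ℝ h,
      ← hk]
  have hkhn : ‖k * h‖ ≤ 1 := by
    rw [hkh]
    refine norm_cfc_le zero_le_one fun t ht => ?_
    have ht0 := spectrum_nonneg_of_nonneg hpos ht
    rw [Real.norm_eq_abs, abs_of_nonneg (by positivity)]
    rw [inv_mul_le_iff₀ (by positivity)]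
    linarith
  have hk1 : h * k + ε • k = 1 := by
    have g1 : h * k = cfc (fun t : ℝ => t * (t + ε)⁻¹) h := by
      rw [cfc_mul (fun t : ℝ => t) (fun t : ℝ => (t + ε)⁻¹) h continuousOn_id hcont1, cfc_id' ℝ h,
        ← hk]
    have g2 : ε • k = cfc (fun t : ℝ => ε * (t + ε)⁻¹) h := by
      rw [hk, cfc_const_mul ε (fun t : ℝ => (t + ε)⁻¹) h hcont1]
    rw [g1, g2, ← cfc_add (a := h) (fun t : ℝ => t * (t + ε)⁻¹) (fun t : ℝ => ε * (t + ε)⁻¹)
      (continuousOn_id.mul hcont1) (continuousOn_const.mul hcont1)]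
    have g3 : cfc (fun t : ℝ => t * (t + ε)⁻¹ + ε * (t + ε)⁻¹) h = cfc (fun _ : ℝ => (1 : ℝ)) h := by
      refine cfc_congr fun t ht => ?_
      have ht0 := spectrum_nonneg_of_nonneg hpos ht
      have ht1 : t + ε ≠ 0 := by positivity
      rw [← add_mul, mul_inv_cancel₀ ht1]
    rw [g3, cfc_const_one ℝ h]
  obtain ⟨w1, hw1⟩ : ∃ w1 : A, w1 = k * z := ⟨_, rfl⟩
  have hw1n : ‖w1‖ ≤ 1 := by
    have g1 : w1 * star w1 = (k * h) * star (k * h) := by
      rw [hw1, star_mul, star_mul, hksa.star_eq, hsa.star_eq]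
      calc k * z * (star z * k) = k * (z * star z) * k := by noncomm_ring
        _ = k * (h * h) * k := by rw [hsq]
        _ = k * h * (h * k) := by noncomm_ring
    have g2 : ‖w1‖ * ‖w1‖ ≤ 1 * 1 := by
      rw [← CStarRing.norm_self_mul_star, g1, CStarRing.norm_self_mul_star]
      exact mul_self_le_mul_self (norm_nonneg _) hkhn
    exact (mul_self_le_mul_self_iff (norm_nonneg _) zero_le_one).2 g2
  have hzw : z - h * w1 = ε • w1 := by
    rw [hw1, ← mul_assoc, ← smul_mul_assoc]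
    have g1 : ε • k = 1 - h * k := by rw [← hk1]; abel
    rw [g1, sub_mul, one_mul]
  have hτh : ‖T.τ h‖ ≤ 1 := by
    have := T.norm_τ_le h
    rwa [hhn] at this
  refine ⟨T.τ h • w1, ?_, ?_⟩
  · rw [norm_smul]
    calc ‖T.τ h‖ * ‖w1‖ ≤ 1 * 1 := mul_le_mul hτh hw1n (norm_nonneg _) zero_le_one
      _ = 1 := one_mul 1
  · have g1 : z - T.τ h • w1 = (z - h * w1) + (h - T.τ h • (1 : A)) * w1 := by
      rw [sub_mul, smul_mul_assoc, one_mul]
      abel
    rw [g1, map_add]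
    refine (norm_add_le _ _).trans (add_le_add ?_ ?_)
    · rw [hzw]
      refine (T.norm_le _).trans ?_
      rw [norm_smul, Real.norm_of_nonneg hε.le]
      calc ε * ‖w1‖ ≤ ε * 1 := mul_le_mul_of_nonneg_left hw1n hε.le
        _ = ε := mul_one ε
    · refine (T.mul_le' _ _).trans ?_
      calc ‖T.ι (h - T.τ h • (1 : A))‖ * ‖w1‖ ≤ (gapC F0 C0 * Real.sqrt (2 * d)) * 1 :=
            mul_le_mul hgap hw1n (norm_nonneg _)
              (mul_nonneg (Real.sqrt_nonneg _) (Real.sqrt_nonneg _))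
        _ = gapC F0 C0 * Real.sqrt (2 * d) := mul_one _

/-- quantitative choice of the parameter -/
theorem TrAlg.Gap.exists_unitarise {F0 : Finset A} {C0 : ℝ} (hg : T.Gap F0 C0) (ε : ℝ)
    (hε : 0 < ε) : ∃ d : ℝ, 0 < d ∧ d ≤ ε ∧ ∀ (f : A →⋆ₐ[ℂ] A) (z : A), ‖T.ι z‖ = 1 →
      (∀ u ∈ F0, ‖T.ι (u * z - z * f u)‖ ≤ d) → ∃ w : A, ‖w‖ ≤ 1 ∧ ‖T.ι (z - w)‖ ≤ ε := by
  obtain ⟨Γ, hΓ⟩ : ∃ Γ : ℝ, Γ = gapC F0 C0 := ⟨_, rfl⟩
  have hΓ0 : 0 ≤ Γ := by rw [hΓ]; exact Real.sqrt_nonneg _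
  obtain ⟨d, hd⟩ : ∃ d : ℝ, d = min ε (((ε / 2) / (Γ + 1)) ^ 2 / 2) := ⟨_, rfl⟩
  have hdp : 0 < d := by rw [hd]; positivity
  refine ⟨d, hdp, by rw [hd]; exact min_le_left _ _, fun f z hz hu => ?_⟩
  obtain ⟨w, hw1, hw2⟩ := hg.unitarise f z hz d (ε / 2) hdp.le (by positivity) hu
  refine ⟨w, hw1, hw2.trans ?_⟩
  rw [← hΓ]
  have h1 : Real.sqrt (2 * d) ≤ (ε / 2) / (Γ + 1) := by
    refine Real.sqrt_le_iff.2 ⟨by positivity, ?_⟩
    have : d ≤ ((ε / 2) / (Γ + 1)) ^ 2 / 2 := by rw [hd]; exact min_le_right _ _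
    linarith
  have h2 : Γ * Real.sqrt (2 * d) ≤ ε / 2 := by
    calc Γ * Real.sqrt (2 * d) ≤ (Γ + 1) * ((ε / 2) / (Γ + 1)) :=
          mul_le_mul (by linarith) h1 (Real.sqrt_nonneg _) (by positivity)
      _ = ε / 2 := by field_simp
  linarith

/-- NEAR, for one homomorphism -/
theorem TrAlg.Gap.exists_near {F0 : Finset A} {C0 : ℝ} (hg : T.Gap F0 C0) (δ : ℝ) (hδ : 0 < δ) :
    ∃ η d : ℝ, 0 < η ∧ 0 < d ∧ ∀ (f : A →⋆ₐ[ℂ] A), (∀ u ∈ F0, ‖T.ι (f u - u)‖ ≤ η) →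
      ∀ z : A, (∀ u ∈ F0, ‖T.ι (u * z - z * f u)‖ ≤ d * ‖T.ι z‖) →
        ‖T.ι (z - T.τ z • (1 : A))‖ ≤ δ * ‖T.ι z‖ := by
  obtain ⟨Γ, hΓ⟩ : ∃ Γ : ℝ, Γ = gapC F0 C0 := ⟨_, rfl⟩
  have hΓ0 : 0 ≤ Γ := by rw [hΓ]; exact Real.sqrt_nonneg _
  obtain ⟨ε, hε⟩ : ∃ ε : ℝ, ε = δ / (4 * Γ + 1) := ⟨_, rfl⟩
  have hεp : 0 < ε := by rw [hε]; positivity
  obtain ⟨d, hd, hdε, huni⟩ := hg.exists_unitarise ε hεp
  refine ⟨ε, d, hεp, hd, fun f hf z hz => ?_⟩
  -- normalise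
  by_cases hz0 : T.ι z = 0
  · have : z = 0 := T.inj (by rw [hz0, map_zero])
    subst this
    simp [TrAlg.τ]
  have hn : 0 < ‖T.ι z‖ := norm_pos_iff.2 hz0
  obtain ⟨r, hr⟩ : ∃ r : ℝ, r = ‖T.ι z‖⁻¹ := ⟨_, rfl⟩
  have hrp : 0 < r := by rw [hr]; positivity
  have hsm : ∀ x : A, ‖T.ι ((r : ℂ) • x)‖ = r * ‖T.ι x‖ := fun x => by
    rw [map_smul, norm_smul, Complex.norm_real, Real.norm_of_nonneg hrp.le]
  have hz1 : ‖T.ι ((r : ℂ) • z)‖ = 1 := by rw [hsm, hr, inv_mul_cancel₀ hn.ne']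
  have hcom : ∀ u ∈ F0, ‖T.ι (u * ((r : ℂ) • z) - ((r : ℂ) • z) * f u)‖ ≤ d := by
    intro u hu
    rw [mul_smul_comm, smul_mul_assoc, ← smul_sub, hsm, hr]
    rw [inv_mul_le_iff₀ hn, mul_comm]
    exact hz u hu
  obtain ⟨w, hw1, hw2⟩ := huni f _ hz1 hcom
  have hw3 : ∀ u ∈ F0, ‖T.ι (u * w - w * u)‖ ≤ 4 * ε := by
    intro u hu
    obtain ⟨hu1, hu2⟩ := hg.unit u hu
    have e1 : u * w - w * u = (u * ((r : ℂ) • z) - ((r : ℂ) • z) * f u)
        - u * ((r : ℂ) • z - w) + ((r : ℂ) • z - w) * f u + w * (f u - u) := by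
      noncomm_ring
    have hfu : f u * star (f u) = 1 := by rw [← map_star, ← map_mul, hu2, map_one]
    have n2 : ‖T.ι (u * ((r : ℂ) • z - w))‖ ≤ ε := by
      rw [T.norm_unitary_mul _ hu1]; exact hw2
    have n3 : ‖T.ι (((r : ℂ) • z - w) * f u)‖ ≤ ε := by
      rw [T.norm_mul_unitary _ hfu]; exact hw2
    have n4 : ‖T.ι (w * (f u - u))‖ ≤ ε := by
      refine (T.mul_le _ _).trans ?_
      calc ‖w‖ * ‖T.ι (f u - u)‖ ≤ 1 * ε :=
            mul_le_mul hw1 (hf u hu) (norm_nonneg _) zero_le_one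
        _ = ε := one_mul ε
    rw [e1, map_add, map_add, map_sub]
    refine (norm_add_le _ _).trans ?_
    have a1 := norm_add_le (T.ι (u * ((r : ℂ) • z) - ((r : ℂ) • z) * f u)
      - T.ι (u * ((r : ℂ) • z - w))) (T.ι (((r : ℂ) • z - w) * f u))
    have a2 := norm_sub_le (T.ι (u * ((r : ℂ) • z) - ((r : ℂ) • z) * f u))
      (T.ι (u * ((r : ℂ) • z - w)))
    have a3 := hcom u hu
    linarith
  have hgap := hg.le w (4 * ε) (by positivity) hw3
  rw [← hΓ] at hgap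
  have hfin : ‖T.ι ((r : ℂ) • z - T.τ ((r : ℂ) • z) • (1 : A))‖ ≤ δ := by
    have e1 : (r : ℂ) • z - T.τ ((r : ℂ) • z) • (1 : A)
        = (w - T.τ w • (1 : A))
          + (((r : ℂ) • z - w) - T.τ ((r : ℂ) • z - w) • (1 : A)) := by
      rw [T.τ_sub, sub_smul]
      abel
    rw [e1, map_add]
    refine (norm_add_le _ _).trans ?_
    have a1 := T.norm_sub_τ_le ((r : ℂ) • z - w)
    have a2 : (4 * Γ + 1) * ε = δ := by rw [hε]; field_simp
    nlinarith
  have e2 : (r : ℂ) • z - T.τ ((r : ℂ) • z) • (1 : A) = (r : ℂ) • (z - T.τ z • (1 : A)) := by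
    rw [T.τ_smul, smul_sub, smul_smul]
  rw [e2, hsm, hr, inv_mul_le_iff₀ hn, mul_comm] at hfin
  exact hfin

end

end Pool.Agent.AbCoc
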