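import Pool.Agent.Lib_MP_418a80_gap.Gap2

/-!
# Spectral gap, part 3: approximate intertwining contractions and outer automorphisms
-/

set_option autoImplicit false
set_option linter.unusedVariables false
set_option linter.unusedSectionVars false

open Topology Filter MeasureTheory

namespace Pool.Agent.AbCoc

universe u v w

section
variable {A : Type u} [CStarAlgebra A] {K : Type v} [NormedAddCommGroup K]
  [InnerProductSpace ℂ K] {T : TrAlg A K}

/-- almost intertwining contractions are almost proportional -/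
theorem TrAlg.Gap.proportional {F0 : Finset A} {C0 : ℝ} (hg : T.Gap F0 C0) (f : A →⋆ₐ[ℂ] A)
    (η : ℝ) (hη : 0 ≤ η) (w w' : A) (hw : ‖w‖ ≤ 1) (hw' : ‖w'‖ ≤ 1) (hn : 1 - η ≤ ‖T.ι w‖)
    (hn' : 1 - η ≤ ‖T.ι w'‖) (hc : ∀ u ∈ F0, ‖T.ι (u * w - w * f u)‖ ≤ η)
    (hc' : ∀ u ∈ F0, ‖T.ι (u * w' - w' * f u)‖ ≤ η) :
    ∃ c : ℂ, ‖c‖ = 1 ∧ ‖T.ι (w - c • w')‖
      ≤ 2 * (Real.sqrt (2 * η) + gapC F0 C0 * (2 * η)) + 2 * η := by
  obtain ⟨Γ, hΓ⟩ : ∃ Γ : ℝ, Γ = gapC F0 C0 := ⟨_, rfl⟩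
  have hΓ0 : 0 ≤ Γ := by rw [hΓ]; exact Real.sqrt_nonneg _
  obtain ⟨p, hp⟩ : ∃ p : A, p = w * star w' := ⟨_, rfl⟩
  have hpc : ∀ u ∈ F0, ‖T.ι (u * p - p * u)‖ ≤ 2 * η := by
    intro u hu
    obtain ⟨hu1, hu2⟩ := hg.unit u hu
    have hf1 : f u * star (f u) = 1 := by rw [← map_star, ← map_mul, hu2, map_one]
    have hf2 : star (f u) * f u = 1 := by rw [← map_star, ← map_mul, hu1, map_one]
    have e1 : u * p - p * u = (u * w - w * f u) * star w' + w * (f u * star w' - star w' * u) := by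
      rw [hp]
      noncomm_ring
    have n1 : ‖T.ι ((u * w - w * f u) * star w')‖ ≤ η := by
      refine (T.mul_le' _ _).trans ?_
      rw [_root_.norm_star]
      calc ‖T.ι (u * w - w * f u)‖ * ‖w'‖ ≤ η * 1 :=
            mul_le_mul (hc u hu) hw' (norm_nonneg _) hη
        _ = η := mul_one η
    have n2 : ‖T.ι (w * (f u * star w' - star w' * u))‖ ≤ η := by
      refine (T.mul_le _ _).trans ?_
      rw [T.norm_swap w' u (f u) hu2 hu1 hf1 hf2]
      calc ‖w‖ * ‖T.ι (u * w' - w' * f u)‖ ≤ 1 * η :=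
            mul_le_mul hw (hc' u hu) (norm_nonneg _) zero_le_one
        _ = η := one_mul η
    rw [e1, map_add]
    refine (norm_add_le _ _).trans ?_
    linarith
  have hgap := hg.le p (2 * η) (by positivity) hpc
  rw [← hΓ] at hgap ⊢
  have hw1 : ‖T.ι w‖ ≤ 1 := (T.norm_le w).trans hw
  have hw1' : ‖T.ι w'‖ ≤ 1 := (T.norm_le w').trans hw'
  have n3 : ‖T.ι (1 - star w' * w')‖ ≤ Real.sqrt (2 * η) := by
    refine Real.le_sqrt_of_sq_le ((T.norm_sq_one_sub w' hw').trans ?_)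
    nlinarith [norm_nonneg (T.ι w')]
  obtain ⟨t, ht⟩ : ∃ t : ℂ, t = T.τ p := ⟨_, rfl⟩
  rw [← ht] at hgap
  obtain ⟨κ, hκ⟩ : ∃ κ : ℝ, κ = Real.sqrt (2 * η) + Γ * (2 * η) := ⟨_, rfl⟩
  have hκ0 : 0 ≤ κ := by rw [hκ]; positivity
  have n4 : ‖T.ι (w - t • w')‖ ≤ κ := by
    have e1 : w - t • w' = w * (1 - star w' * w') + (p - t • (1 : A)) * w' := by
      rw [hp, sub_mul, smul_mul_assoc, one_mul]
      noncomm_ring
    rw [e1, map_add, hκ]
    refine (norm_add_le _ _).trans (add_le_add ?_ ?_)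
    · refine (T.mul_le _ _).trans ?_
      calc ‖w‖ * ‖T.ι (1 - star w' * w')‖ ≤ 1 * Real.sqrt (2 * η) :=
            mul_le_mul hw n3 (norm_nonneg _) zero_le_one
        _ = Real.sqrt (2 * η) := one_mul _
    · refine (T.mul_le' _ _).trans ?_
      calc ‖T.ι (p - t • (1 : A))‖ * ‖w'‖ ≤ (Γ * (2 * η)) * 1 :=
            mul_le_mul hgap hw' (norm_nonneg _) (by positivity)
        _ = Γ * (2 * η) := mul_one _
  have ht1 : ‖t‖ ≤ 1 := by
    rw [ht]
    refine (T.norm_τ_le p).trans ((T.norm_le p).trans ?_)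
    rw [hp]
    refine (norm_mul_le _ _).trans ?_
    rw [_root_.norm_star]
    calc ‖w‖ * ‖w'‖ ≤ 1 * 1 := mul_le_mul hw hw' (norm_nonneg _) zero_le_one
      _ = 1 := one_mul 1
  have ht2 : 1 - η - κ ≤ ‖t‖ := by
    have e1 : ‖T.ι w‖ ≤ ‖T.ι (w - t • w')‖ + ‖t‖ * ‖T.ι w'‖ := by
      have e2 : T.ι w = T.ι (w - t • w') + t • T.ι w' := by
        rw [← map_smul, ← map_add, sub_add_cancel]
      calc ‖T.ι w‖ = ‖T.ι (w - t • w') + t • T.ι w'‖ := by rw [← e2]
        _ ≤ _ := (norm_add_le _ _).trans (by rw [norm_smul])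
    have e3 : ‖t‖ * ‖T.ι w'‖ ≤ ‖t‖ * 1 := mul_le_mul_of_nonneg_left hw1' (norm_nonneg _)
    linarith
  rw [← hκ]
  by_cases ht0 : t = 0
  · refine ⟨1, by simp, ?_⟩
    rw [one_smul, map_sub]
    refine (norm_sub_le _ _).trans ?_
    rw [ht0, norm_zero] at ht2
    linarith
  · have htn : 0 < ‖t‖ := norm_pos_iff.2 ht0
    refine ⟨t / (‖t‖ : ℂ), ?_, ?_⟩
    · rw [norm_div, Complex.norm_real, norm_norm, div_self htn.ne']
    · have e1 : w - (t / (‖t‖ : ℂ)) • w' = (w - t • w') + (t - t / (‖t‖ : ℂ)) • w' := by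
        rw [sub_smul]
        abel
      have e2 : ‖t - t / (‖t‖ : ℂ)‖ = 1 - ‖t‖ := by
        have g1 : t - t / (‖t‖ : ℂ) = (t / (‖t‖ : ℂ)) * ((‖t‖ - 1 : ℝ) : ℂ) := by
          have : (‖t‖ : ℂ) ≠ 0 := by exact_mod_cast htn.ne'
          rw [Complex.ofReal_sub, Complex.ofReal_one]
          field_simp
        rw [g1, norm_mul, norm_div, Complex.norm_real, norm_norm, div_self htn.ne', one_mul,
          Complex.norm_real, Real.norm_eq_abs, abs_of_nonpos (by linarith)]
        ring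
      rw [e1, map_add]
      refine (norm_add_le _ _).trans ?_
      rw [map_smul, norm_smul, e2]
      have e3 : (1 - ‖t‖) * ‖T.ι w'‖ ≤ (1 - ‖t‖) * 1 :=
        mul_le_mul_of_nonneg_left hw1' (by linarith)
      linarith

/-- if there are approximately intertwining contractions of `2`-norm almost one, then `f` is
inner -/
theorem TrAlg.Gap.exists_intertwiner {F0 : Finset A} {C0 : ℝ} (hg : T.Gap F0 C0)
    (f : A →⋆ₐ[ℂ] A)
    (H : ∀ FF : Finset A, (∀ u ∈ FF, star u * u = 1 ∧ u * star u = 1) → F0 ⊆ FF → ∀ η : ℝ, 0 < η →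
      ∃ w : A, ‖w‖ ≤ 1 ∧ 1 - η ≤ ‖T.ι w‖ ∧ ∀ u ∈ FF, ‖T.ι (u * w - w * f u)‖ ≤ η) :
    ∃ v : A, star v * v = 1 ∧ v * star v = 1 ∧ ∀ x : A, x * v = v * f x := by
  classical
  obtain ⟨Γ, hΓ⟩ : ∃ Γ : ℝ, Γ = gapC F0 C0 := ⟨_, rfl⟩
  have hΓ0 : 0 ≤ Γ := by rw [hΓ]; exact Real.sqrt_nonneg _
  -- the parameters
  obtain ⟨e, he⟩ : ∃ e : ℕ → ℝ, e = fun k => (1 / 2 : ℝ) ^ k := ⟨_, rfl⟩
  obtain ⟨η, hη⟩ : ∃ η : ℕ → ℝ, η = fun k => (e k / (4 * (1 + Γ))) ^ 2 := ⟨_, rfl⟩
  have hep : ∀ k, 0 < e k := fun k => by rw [he]; positivity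
  have he1 : ∀ k, e k ≤ 1 := fun k => by
    rw [he]; exact pow_le_one₀ (by norm_num) (by norm_num)
  have hemono : ∀ k, e (k + 1) ≤ e k := fun k => by
    rw [he]; exact pow_le_pow_of_le_one (by norm_num) (by norm_num) (Nat.le_succ k)
  have hηp : ∀ k, 0 < η k := fun k => by
    rw [hη]
    have := hep k
    positivity
  have hηmono : ∀ k, η (k + 1) ≤ η k := fun k => by
    rw [hη]
    refine pow_le_pow_left₀ (div_nonneg (hep _).le (by positivity)) ?_ 2
    exact div_le_div_of_nonneg_right (hemono k) (by positivity)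
  have hηe : ∀ k, η k ≤ e k := fun k => by
    rw [hη]
    have h1 := hep k
    have h2 := he1 k
    have h3 : e k / (4 * (1 + Γ)) ≤ e k := div_le_self h1.le (by linarith)
    have h4 : 0 ≤ e k / (4 * (1 + Γ)) := by positivity
    calc (e k / (4 * (1 + Γ))) ^ 2 = (e k / (4 * (1 + Γ))) * (e k / (4 * (1 + Γ))) := sq _
      _ ≤ 1 * e k := mul_le_mul (h3.trans h2) h3 h4 zero_le_one
      _ = e k := one_mul _
  have hbound : ∀ k, 2 * (Real.sqrt (2 * η k) + Γ * (2 * η k)) + 2 * η k ≤ e k := by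
    intro k
    obtain ⟨a, ha⟩ : ∃ a : ℝ, a = e k / (4 * (1 + Γ)) := ⟨_, rfl⟩
    have ha0 : 0 ≤ a := by
      rw [ha]
      exact div_nonneg (hep k).le (by positivity)
    have hak : 4 * (1 + Γ) * a = e k := by rw [ha]; field_simp
    have hη' : η k = a ^ 2 := by rw [hη, ha]
    have ha1 : a ≤ 1 / 4 := by
      have := he1 k
      nlinarith
    have hs : Real.sqrt (2 * η k) ≤ 3 / 2 * a := by
      rw [hη']
      refine Real.sqrt_le_iff.2 ⟨by positivity, ?_⟩
      nlinarith [sq_nonneg a]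
    rw [hη']
    rw [hη'] at hs
    have h1 : Γ * (2 * a ^ 2) ≤ Γ * (1 / 2 * a) := by
      refine mul_le_mul_of_nonneg_left ?_ hΓ0
      nlinarith
    nlinarith
  -- the sequence
  choose w hw1 hw2 hw3 using fun k => H F0 hg.unit (Finset.Subset.refl _) (η k) (hηp k)
  have hprop : ∀ k, ∃ c : ℂ, ‖c‖ = 1 ∧ ‖T.ι (w k - c • w (k + 1))‖ ≤ e k := by
    intro k
    obtain ⟨c, hc1, hc2⟩ := hg.proportional f (η k) (hηp k).le (w k) (w (k + 1)) (hw1 k)
      (hw1 (k + 1)) (hw2 k) (by have := hw2 (k + 1); have := hηmono k; linarith) (hw3 k)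
      (fun u hu => (hw3 (k + 1) u hu).trans (hηmono k))
    rw [← hΓ] at hc2
    exact ⟨c, hc1, hc2.trans (hbound k)⟩
  choose c hc1 hc2 using hprop
  obtain ⟨ph, hph⟩ : ∃ ph : ℕ → ℂ, ph = fun k => ∏ j ∈ Finset.range k, c j := ⟨_, rfl⟩
  have hphn : ∀ k, ‖ph k‖ = 1 := fun k => by
    rw [hph]
    simp only [norm_prod, hc1, Finset.prod_const_one]
  obtain ⟨v, hv⟩ : ∃ v : ℕ → A, v = fun k => ph k • w k := ⟨_, rfl⟩
  have hvn : ∀ k, ‖v k‖ ≤ 1 := fun k => by
    rw [hv]
    simp only [norm_smul, hphn, one_mul]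
    exact hw1 k
  have hvι : ∀ k, ‖T.ι (v k)‖ = ‖T.ι (w k)‖ := fun k => by
    rw [hv]
    simp only [map_smul, norm_smul, hphn, one_mul]
  have hvd : ∀ k, ‖T.ι (v k) - T.ι (v (k + 1))‖ ≤ e k := by
    intro k
    have h1 : v k - v (k + 1) = ph k • (w k - c k • w (k + 1)) := by
      rw [hv, hph]
      simp only [Finset.prod_range_succ, smul_sub, smul_smul]
    rw [← map_sub, h1, map_smul, norm_smul, hphn, one_mul]
    exact hc2 k
  have hcauchy : CauchySeq fun k => T.ι (v k) := by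
    refine cauchySeq_of_le_geometric (1 / 2) 1 (by norm_num) fun k => ?_
    rw [dist_eq_norm, one_mul]
    have := hvd k
    rw [he] at this
    exact this
  obtain ⟨y, hy⟩ := T.complete 1 v hvn hcauchy
  have helim : Tendsto e atTop (𝓝 0) := by
    rw [he]
    exact tendsto_pow_atTop_nhds_zero_of_lt_one (by norm_num) (by norm_num)
  -- `v k` is almost unitary
  have hone : Tendsto (fun k => 1 - ‖T.ι (v k)‖ ^ 2) atTop (𝓝 0) := by
    have h1 : Tendsto (fun k => 2 * e k) atTop (𝓝 0) := by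
      have := helim.const_mul 2
      rwa [mul_zero] at this
    refine squeeze_zero (fun k => ?_) (fun k => ?_) h1
    · have h2 : ‖T.ι (v k)‖ ≤ 1 := (T.norm_le _).trans (hvn k)
      have h3 := pow_le_pow_left₀ (norm_nonneg _) h2 2
      linarith
    · have h2 := hw2 k
      rw [← hvι] at h2
      have h3 := hηe k
      have h4 : ‖T.ι (v k)‖ ≤ 1 := (T.norm_le _).trans (hvn k)
      nlinarith [norm_nonneg (T.ι (v k))]
  have hsq : Tendsto (fun k => Real.sqrt (1 - ‖T.ι (v k)‖ ^ 2)) atTop (𝓝 0) := by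
    have := (Real.continuous_sqrt.tendsto 0).comp hone
    rwa [Real.sqrt_zero] at this
  have hys : star y * y = 1 := by
    have h1 : Tendsto (fun k => T.ι (star (v k) * v k)) atTop (𝓝 (T.ι (star y * y))) :=
      T.tendsto_mul 1 (fun k => by rw [_root_.norm_star]; exact hvn k) (T.tendsto_star hy) hy
    have h2 : Tendsto (fun k => T.ι (star (v k) * v k)) atTop (𝓝 (T.ι 1)) := by
      rw [tendsto_iff_norm_sub_tendsto_zero]
      refine squeeze_zero (fun k => norm_nonneg _) (fun k => ?_) hsq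
      rw [← map_sub, ← norm_neg, ← map_neg, neg_sub]
      exact Real.le_sqrt_of_sq_le (T.norm_sq_one_sub (v k) (hvn k))
    exact T.tendsto_unique h1 h2
  have hys' : y * star y = 1 := by
    have h1 : Tendsto (fun k => T.ι (v k * star (v k))) atTop (𝓝 (T.ι (y * star y))) :=
      T.tendsto_mul 1 hvn hy (T.tendsto_star hy)
    have h2 : Tendsto (fun k => T.ι (v k * star (v k))) atTop (𝓝 (T.ι 1)) := by
      rw [tendsto_iff_norm_sub_tendsto_zero]
      refine squeeze_zero (fun k => norm_nonneg _) (fun k => ?_) hsq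
      rw [← map_sub, ← norm_neg, ← map_neg, neg_sub]
      have h3 := T.norm_sq_one_sub (star (v k)) (by rw [_root_.norm_star]; exact hvn k)
      rw [star_star, T.norm_star] at h3
      exact Real.le_sqrt_of_sq_le h3
    exact T.tendsto_unique h1 h2
  refine ⟨y, hys, hys', ?_⟩
  -- intertwining for unitaries
  have huni : ∀ u : A, star u * u = 1 → u * star u = 1 → u * y = y * f u := by
    intro u hu1 hu2
    have hf1 : f u * star (f u) = 1 := by rw [← map_star, ← map_mul, hu2, map_one]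
    have hFF : ∀ x ∈ insert u F0, star x * x = 1 ∧ x * star x = 1 := by
      intro x hx
      rcases Finset.mem_insert.1 hx with h | h
      · rw [h]; exact ⟨hu1, hu2⟩
      · exact hg.unit x h
    have hnear : ∀ k, ‖T.ι (u * v k - v k * f u)‖ ≤ 3 * e k := by
      intro k
      obtain ⟨w', hw1', hw2', hw3'⟩ := H (insert u F0) hFF (Finset.subset_insert _ _) (η k) (hηp k)
      obtain ⟨b, hb1, hb2⟩ := hg.proportional f (η k) (hηp k).le (w k) w' (hw1 k) hw1' (hw2 k) hw2'
        (hw3 k) (fun x hx => hw3' x (Finset.mem_insert_of_mem hx))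
      rw [← hΓ] at hb2
      have hb3 := hb2.trans (hbound k)
      have h1 : u * v k - v k * f u = ph k • (u * w k - w k * f u) := by
        rw [hv]
        simp only [mul_smul_comm, smul_mul_assoc, smul_sub]
      have h2 : u * w k - w k * f u = u * (w k - b • w') - (w k - b • w') * f u
          + b • (u * w' - w' * f u) := by
        simp only [mul_sub, sub_mul, smul_sub, mul_smul_comm, smul_mul_assoc]
        abel
      rw [h1, map_smul, norm_smul, hphn, one_mul, h2, map_add, map_sub]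
      refine (norm_add_le _ _).trans ?_
      have a1 := norm_sub_le (T.ι (u * (w k - b • w'))) (T.ι ((w k - b • w') * f u))
      rw [T.norm_unitary_mul _ hu1, T.norm_mul_unitary _ hf1] at a1
      have a2 : ‖T.ι (b • (u * w' - w' * f u))‖ ≤ η k := by
        rw [map_smul, norm_smul, hb1, one_mul]
        exact hw3' u (Finset.mem_insert_self _ _)
      have a3 := hηe k
      linarith
    have h1 : Tendsto (fun k => T.ι (u * v k)) atTop (𝓝 (T.ι (u * y))) :=
      T.tendsto_mul ‖u‖ (fun _ => le_rfl) tendsto_const_nhds hy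
    have h2 : Tendsto (fun k => T.ι (v k * f u)) atTop (𝓝 (T.ι (y * f u))) :=
      T.tendsto_mul 1 hvn hy tendsto_const_nhds
    have h3 : Tendsto (fun k => T.ι (u * v k)) atTop (𝓝 (T.ι (y * f u))) := by
      have h4 : Tendsto (fun k => T.ι (u * v k) - T.ι (v k * f u)) atTop (𝓝 0) := by
        have h5 : Tendsto (fun k => 3 * e k) atTop (𝓝 0) := by
          have := helim.const_mul 3
          rwa [mul_zero] at this
        rw [tendsto_zero_iff_norm_tendsto_zero]
        refine squeeze_zero (fun k => norm_nonneg _) (fun k => ?_) h5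
        rw [← map_sub]
        exact hnear k
      have h5 := h4.add h2
      simpa using h5
    exact T.tendsto_unique h1 h3
  -- all elements
  intro x
  have hx : x ∈ Submodule.span ℂ (unitary A : Set A) := by
    rw [CStarAlgebra.span_unitary]
    trivial
  induction hx using Submodule.span_induction with
  | mem u hu =>
    have hu' := Unitary.mem_iff.1 hu
    exact huni u hu'.1 hu'.2
  | zero => rw [map_zero, zero_mul, mul_zero]
  | add a b _ _ ha hb => rw [map_add, add_mul, mul_add, ha, hb]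
  | smul r a _ ha => rw [map_smul, smul_mul_assoc, mul_smul_comm, ha]

end

end Pool.Agent.AbCoc
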