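import Pool.Agent.Lib_MP_418a80_gap.Gap3

/-!
# Spectral gap, part 4: uniform estimates near the unit and on compact sets
-/

set_option autoImplicit false
set_option linter.unusedVariables false
set_option linter.unusedSectionVars false

open Topology Filter MeasureTheory

namespace Pool.Agent.AbCoc

universe u v w

/-- every finite set of unitaries is contained in a symmetric system -/
theorem exists_usys {A : Type u} [CStarAlgebra A] (FF : Finset A)
    (hFF : ∀ u ∈ FF, star u * u = 1 ∧ u * star u = 1) :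
    ∃ X : USys A, ∀ u ∈ FF, ∃ i : X.J, X.u i = u := by
  classical
  obtain ⟨n, hn⟩ : ∃ n : ℕ, n = FF.card := ⟨_, rfl⟩
  obtain ⟨e, -⟩ : ∃ e : Fin n ≃ FF, True := ⟨(FF.equivFinOfCardEq hn.symm).symm, trivial⟩
  have hu : ∀ i, star (e i : A) * (e i : A) = 1 ∧ (e i : A) * star (e i : A) = 1 := fun i =>
    hFF _ (e i).2
  obtain ⟨v, hv⟩ : ∃ v : Option (Fin n × Bool) → A,
      v = fun o => match o with
        | none => 1
        | some (i, true) => (e i : A)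
        | some (i, false) => star (e i : A) := ⟨_, rfl⟩
  have hinv : Function.Involutive (Option.map fun p : Fin n × Bool => (p.1, !p.2)) := by
    rintro (_ | ⟨i, b⟩)
    · rfl
    · simp
  refine ⟨⟨Option (Fin n × Bool), inferInstance, v, ?_, ?_, hinv.toPerm, ?_, none, ?_⟩, ?_⟩
  · rintro (_ | ⟨i, _ | _⟩)
    · rw [hv]; simp
    · rw [hv]
      change star (star (e i : A)) * star (e i : A) = 1
      rw [star_star]
      exact (hu i).2
    · rw [hv]
      exact (hu i).1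
  · rintro (_ | ⟨i, _ | _⟩)
    · rw [hv]; simp
    · rw [hv]
      change star (e i : A) * star (star (e i : A)) = 1
      rw [star_star]
      exact (hu i).1
    · rw [hv]
      exact (hu i).2
  · rintro (_ | ⟨i, _ | _⟩)
    · rw [hv]
      change (1 : A) = star 1
      rw [star_one]
    · rw [hv]
      change (e i : A) = star (star (e i : A))
      rw [star_star]
    · rw [hv]
      rfl
  · rw [hv]
  · intro u hu
    refine ⟨some (e.symm ⟨u, hu⟩, true), ?_⟩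
    change v _ = u
    rw [hv]
    change ((e (e.symm ⟨u, hu⟩) : FF) : A) = u
    rw [e.apply_symm_apply]

section
variable {A : Type u} [CStarAlgebra A] {K : Type v} [NormedAddCommGroup K]
  [InnerProductSpace ℂ K] (T : TrAlg A K)

/-- almost eigenvectors of the twisted average almost intertwine -/
theorem USys.from_eig (X : USys A) (f : A →⋆ₐ[ℂ] A) (z : A) (c : ℝ) (hc : 0 ≤ c) (hc1 : c ≤ 1)
    (hz : (1 - c) * ‖T.ι z‖ ≤ ‖T.ι (X.tw f z)‖) (i : X.J) :
    ‖T.ι (X.u i * z - z * f (X.u i))‖ ^ 2 ≤ 8 * c * X.m * ‖T.ι z‖ ^ 2 := by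
  have hm : (0 : ℝ) < X.m := Nat.cast_pos.2 X.m_pos
  obtain ⟨V, hV⟩ : ∃ V : X.J → K, V = fun i => T.ι (star (X.u i) * z * f (X.u i)) := ⟨_, rfl⟩
  obtain ⟨a, ha⟩ : ∃ a : K, a = T.ι (X.tw f z) := ⟨_, rfl⟩
  obtain ⟨N, hN⟩ : ∃ N : ℝ, N = ‖T.ι z‖ := ⟨_, rfl⟩
  have hN0 : 0 ≤ N := by rw [hN]; positivity
  have hVn : ∀ i, ‖V i‖ = N := fun i => by
    rw [hV, hN]
    exact X.norm_term T f z i
  have hsum : ∑ i, V i = (X.m : ℂ) • a := by
    rw [ha, X.tw_apply, map_smul, map_sum, smul_smul, mul_inv_cancel₀ (by exact_mod_cast hm.ne'),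
      one_smul, hV]
  have hvar : ∑ i, ‖V i - a‖ ^ 2 = X.m * (N ^ 2 - ‖a‖ ^ 2) := by
    have h1 : ∀ i, ‖V i - a‖ ^ 2 = N ^ 2 - 2 * (inner ℂ (V i) a).re + ‖a‖ ^ 2 := fun i => by
      rw [@norm_sub_sq ℂ, hVn]
      simp only [RCLike.re_to_complex]
    simp only [h1]
    rw [Finset.sum_add_distrib, Finset.sum_sub_distrib, ← Finset.mul_sum]
    have h2 : ∑ i, (inner ℂ (V i) a).re = X.m * ‖a‖ ^ 2 := by
      rw [← Complex.re_sum, ← sum_inner, hsum, inner_smul_left, inner_self_eq_norm_sq_to_K]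
      have h3 : (starRingEnd ℂ) (X.m : ℂ) = ((X.m : ℝ) : ℂ) := by
        rw [Complex.conj_natCast]
        norm_cast
      rw [h3, Complex.re_ofReal_mul]
      norm_cast
    rw [h2]
    simp only [Finset.sum_const, Finset.card_univ, nsmul_eq_mul]
    have h4 : (Fintype.card X.J : ℝ) = X.m := rfl
    rw [h4]
    ring
  have hle : ∑ i, ‖V i - a‖ ^ 2 ≤ 2 * c * X.m * N ^ 2 := by
    rw [hvar]
    have h1 : ((1 - c) * N) ^ 2 ≤ ‖a‖ ^ 2 := by
      rw [ha, hN]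
      exact pow_le_pow_left₀ (mul_nonneg (by linarith) (norm_nonneg _)) hz 2
    have h2 : N ^ 2 - ‖a‖ ^ 2 ≤ 2 * c * N ^ 2 := by
      nlinarith [sq_nonneg (c * N)]
    calc (X.m : ℝ) * (N ^ 2 - ‖a‖ ^ 2) ≤ X.m * (2 * c * N ^ 2) :=
          mul_le_mul_of_nonneg_left h2 hm.le
      _ = 2 * c * X.m * N ^ 2 := by ring
  have hone : ∀ i, ‖V i - a‖ ^ 2 ≤ 2 * c * X.m * N ^ 2 := fun i =>
    (Finset.single_le_sum (f := fun i => ‖V i - a‖ ^ 2) (fun j _ => by positivity)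
      (Finset.mem_univ i)).trans hle
  obtain ⟨i1, hi1⟩ := X.one
  have hV1 : V i1 = T.ι z := by
    rw [hV]
    simp only [hi1, star_one, one_mul, map_one, mul_one]
  have hdiff : ‖T.ι (X.u i * z - z * f (X.u i))‖ = ‖V i - V i1‖ := by
    have h1 : star (X.u i) * z * f (X.u i) - z
        = -(star (X.u i) * (X.u i * z - z * f (X.u i))) := by
      rw [mul_sub, ← mul_assoc (star (X.u i)) (X.u i) z, X.sl, one_mul, mul_assoc]
      abel
    rw [hV1, hV]
    simp only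
    rw [← map_sub, h1, map_neg, norm_neg, T.norm_unitary_mul _ (by rw [star_star, X.sr])]
  rw [hdiff, ← hN]
  have h1 : ‖V i - V i1‖ ≤ ‖V i - a‖ + ‖V i1 - a‖ := by
    have : V i - V i1 = (V i - a) - (V i1 - a) := by abel
    rw [this]
    exact norm_sub_le _ _
  have h2 := pow_le_pow_left₀ (norm_nonneg _) h1 2
  have h3 := hone i
  have h4 := hone i1
  nlinarith [sq_nonneg (‖V i - a‖ - ‖V i1 - a‖)]

end

section
variable {A : Type u} [CStarAlgebra A] {K : Type v} [NormedAddCommGroup K]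
  [InnerProductSpace ℂ K] {T : TrAlg A K}
variable {G : Type w} [Group G] [TopologicalSpace G] (S : TrAct G T)

/-- the automorphisms `α g`, `g ≠ 1`, are outer -/
def TrAct.Outer : Prop :=
  ∀ g : G, g ≠ 1 → ¬ ∃ v : A, star v * v = 1 ∧ v * star v = 1 ∧ ∀ x : A, x * v = v * S.α g x

variable {S}

/-- no almost intertwiners for the elements of `L` -/
def TrAct.FarOn (S : TrAct G T) (F0 : Finset A) (L : Set G) : Prop :=
  ∃ FF : Finset A, (∀ u ∈ FF, star u * u = 1 ∧ u * star u = 1) ∧ F0 ⊆ FF ∧ ∃ η : ℝ, 0 < η ∧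
    ∀ g ∈ L, ∀ w : A, ‖w‖ ≤ 1 → 1 - η ≤ ‖T.ι w‖ →
      ∃ u ∈ FF, η < ‖T.ι (u * w - w * S.α g u)‖

theorem TrAct.farOn_compact (hout : S.Outer) {F0 : Finset A} {C0 : ℝ} (hg : T.Gap F0 C0)
    (L : Set G) (hL : IsCompact L) (h1 : (1 : G) ∉ L) : S.FarOn F0 L := by
  classical
  refine hL.induction_on (p := fun L => S.FarOn F0 L) ?_ ?_ ?_ ?_
  · exact ⟨F0, hg.unit, Finset.Subset.refl _, 1, one_pos, fun g hg => absurd hg (by simp)⟩
  · rintro s t hst ⟨FF, h1, h2, η, h3, h4⟩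
    exact ⟨FF, h1, h2, η, h3, fun g hg => h4 g (hst hg)⟩
  · rintro s t ⟨FF, h1, h2, η, h3, h4⟩ ⟨FF', h1', h2', η', h3', h4'⟩
    refine ⟨FF ∪ FF', ?_, h2.trans Finset.subset_union_left, min η η', lt_min h3 h3', ?_⟩
    · intro u hu
      rcases Finset.mem_union.1 hu with h | h
      · exact h1 u h
      · exact h1' u h
    · intro g hg w hw hwn
      rcases hg with hg | hg
      · obtain ⟨u, hu, hu'⟩ := h4 g hg w hw (by have := min_le_left η η'; linarith)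
        exact ⟨u, Finset.mem_union_left _ hu, (min_le_left η η').trans_lt hu'⟩
      · obtain ⟨u, hu, hu'⟩ := h4' g hg w hw (by have := min_le_right η η'; linarith)
        exact ⟨u, Finset.mem_union_right _ hu, (min_le_right η η').trans_lt hu'⟩
  · intro g hgL
    have hg1 : g ≠ 1 := fun h => h1 (h ▸ hgL)
    have hpt : ∃ FF : Finset A, (∀ u ∈ FF, star u * u = 1 ∧ u * star u = 1) ∧ F0 ⊆ FF ∧
        ∃ η : ℝ, 0 < η ∧ ∀ w : A, ‖w‖ ≤ 1 → 1 - η ≤ ‖T.ι w‖ →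
          ∃ u ∈ FF, η < ‖T.ι (u * w - w * S.α g u)‖ := by
      by_contra hcon
      refine hout g hg1 (hg.exists_intertwiner (S.α g) fun FF hFF hsub η hη => ?_)
      by_contra hcon2
      refine hcon ⟨FF, hFF, hsub, η, hη, fun w hw hwn => ?_⟩
      by_contra hcon3
      refine hcon2 ⟨w, hw, hwn, fun u hu => ?_⟩
      by_contra hcon4
      exact hcon3 ⟨u, hu, not_le.1 hcon4⟩
    obtain ⟨FF, h2, h3, η, h4, h5⟩ := hpt
    have hnb : ∀ᶠ g' in 𝓝 g, ∀ u ∈ FF, ‖T.ι (S.α g' u - S.α g u)‖ < η / 2 := by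
      rw [Filter.eventually_all_finset]
      intro u _
      have hc : Continuous fun g' => ‖T.ι (S.α g' u - S.α g u)‖ := by
        simp only [map_sub]
        exact ((S.cont u).sub continuous_const).norm
      have h6 := hc.tendsto g
      simp only [sub_self, map_zero, norm_zero] at h6
      exact h6.eventually (gt_mem_nhds (by positivity))
    refine ⟨{g' | ∀ u ∈ FF, ‖T.ι (S.α g' u - S.α g u)‖ < η / 2},
      mem_nhdsWithin_of_mem_nhds hnb, FF, h2, h3, η / 2, by positivity, ?_⟩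
    intro g' hg' w hw hwn
    obtain ⟨u, hu, hu'⟩ := h5 w hw (by linarith)
    refine ⟨u, hu, ?_⟩
    have e1 : u * w - w * S.α g u = (u * w - w * S.α g' u) + w * (S.α g' u - S.α g u) := by
      noncomm_ring
    rw [e1, map_add] at hu'
    have e2 : ‖T.ι (w * (S.α g' u - S.α g u))‖ ≤ η / 2 := by
      refine (T.mul_le _ _).trans ?_
      calc ‖w‖ * ‖T.ι (S.α g' u - S.α g u)‖ ≤ 1 * (η / 2) :=
            mul_le_mul hw (hg' u hu).le (norm_nonneg _) zero_le_one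
        _ = η / 2 := one_mul _
    have e3 := norm_add_le (T.ι (u * w - w * S.α g' u)) (T.ι (w * (S.α g' u - S.α g u)))
    linarith

/-- uniform estimates: NEAR and FAR -/
theorem TrAct.exists_kernel (hout : S.Outer) {F0 : Finset A} {C0 : ℝ} (hg : T.Gap F0 C0)
    (δ : ℝ) (hδ : 0 < δ) : ∃ V1 ∈ 𝓝 (1 : G), ∀ L : Set G, IsCompact L → (1 : G) ∉ L →
      ∃ (X : USys A) (q : ℝ), 0 ≤ q ∧ q < 1 ∧
        (∀ g ∈ V1, ∀ z : A, q * ‖T.ι z‖ ≤ ‖T.ι (X.tw (S.α g) z)‖ →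
          ‖T.ι (z - T.τ z • (1 : A))‖ ≤ δ * ‖T.ι z‖) ∧
        (∀ g ∈ L, ∀ z : A, ‖T.ι (X.tw (S.α g) z)‖ ≤ q * ‖T.ι z‖) := by
  obtain ⟨η, d, hη, hd, hnear⟩ := hg.exists_near δ hδ
  have hnb : ∀ᶠ g in 𝓝 (1 : G), ∀ u ∈ F0, ‖T.ι (S.α g u - u)‖ < η := by
    rw [Filter.eventually_all_finset]
    intro u _
    have hc : Continuous fun g' => ‖T.ι (S.α g' u - u)‖ := by
      simp only [map_sub]
      exact ((S.cont u).sub continuous_const).norm
    have h6 := hc.tendsto 1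
    simp only [S.one, sub_self, map_zero, norm_zero] at h6
    exact h6.eventually (gt_mem_nhds hη)
  refine ⟨_, hnb, fun L hL h1 => ?_⟩
  obtain ⟨FF, hFF, hsub, η', hη', hfar⟩ := S.farOn_compact hout hg L hL h1
  obtain ⟨ε, hε⟩ : ∃ ε : ℝ, ε = η' / 3 := ⟨_, rfl⟩
  have hεp : 0 < ε := by rw [hε]; positivity
  obtain ⟨d', hd', hdε, huni⟩ := hg.exists_unitarise ε hεp
  obtain ⟨X, hX⟩ := exists_usys FF hFF
  have hm : (0 : ℝ) < X.m := Nat.cast_pos.2 X.m_pos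
  obtain ⟨d0, hd0⟩ : ∃ d0 : ℝ, d0 = min d d' := ⟨_, rfl⟩
  have hd0p : 0 < d0 := by rw [hd0]; exact lt_min hd hd'
  obtain ⟨c, hc⟩ : ∃ c : ℝ, c = min 1 (d0 ^ 2 / (8 * X.m)) := ⟨_, rfl⟩
  have hcp : 0 < c := by rw [hc]; positivity
  have hc1 : c ≤ 1 := by rw [hc]; exact min_le_left _ _
  have hcd : 8 * c * X.m ≤ d0 ^ 2 := by
    have h2 : c ≤ d0 ^ 2 / (8 * X.m) := by rw [hc]; exact min_le_right _ _
    rw [le_div_iff₀ (by positivity)] at h2
    linarith
  have hint : ∀ g : G, ∀ z : A, (1 - c) * ‖T.ι z‖ ≤ ‖T.ι (X.tw (S.α g) z)‖ →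
      ∀ u ∈ FF, ‖T.ι (u * z - z * S.α g u)‖ ≤ d0 * ‖T.ι z‖ := by
    intro g z hz u hu
    obtain ⟨i, rfl⟩ := hX u hu
    have h2 := X.from_eig T (S.α g) z c hcp.le hc1 hz i
    have h3 : ‖T.ι (X.u i * z - z * S.α g (X.u i))‖ ^ 2 ≤ (d0 * ‖T.ι z‖) ^ 2 := by
      refine h2.trans ?_
      rw [mul_pow]
      exact mul_le_mul_of_nonneg_right hcd (sq_nonneg _)
    exact (pow_le_pow_iff_left₀ (norm_nonneg _) (by positivity) two_ne_zero).1 h3
  refine ⟨X, 1 - c, by linarith, by linarith, ?_, ?_⟩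
  · intro g hgV z hz
    refine hnear (S.α g) (fun u hu => (hgV u hu).le) z fun u hu => ?_
    refine (hint g z hz u (hsub hu)).trans ?_
    refine mul_le_mul_of_nonneg_right ?_ (norm_nonneg _)
    rw [hd0]
    exact min_le_left _ _
  · intro g hgL z
    by_contra hcon
    push Not at hcon
    have hz := hint g z hcon.le
    have hn : 0 < ‖T.ι z‖ := by
      by_contra h0
      have h2 : ‖T.ι z‖ = 0 := le_antisymm (not_lt.1 h0) (norm_nonneg _)
      have h3 := X.norm_tw_le T (S.α g) z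
      rw [h2, mul_zero] at hcon
      linarith
    obtain ⟨r, hr⟩ : ∃ r : ℝ, r = ‖T.ι z‖⁻¹ := ⟨_, rfl⟩
    have hrp : 0 < r := by rw [hr]; positivity
    have hsm : ∀ x : A, ‖T.ι ((r : ℂ) • x)‖ = r * ‖T.ι x‖ := fun x => by
      rw [map_smul, norm_smul, Complex.norm_real, Real.norm_of_nonneg hrp.le]
    have hz1 : ‖T.ι ((r : ℂ) • z)‖ = 1 := by rw [hsm, hr, inv_mul_cancel₀ hn.ne']
    have hcom : ∀ u ∈ FF, ‖T.ι (u * ((r : ℂ) • z) - ((r : ℂ) • z) * S.α g u)‖ ≤ d' := by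
      intro u hu
      rw [mul_smul_comm, smul_mul_assoc, ← smul_sub, hsm, hr]
      rw [inv_mul_le_iff₀ hn]
      refine (hz u hu).trans ?_
      rw [mul_comm]
      refine mul_le_mul_of_nonneg_left ?_ (norm_nonneg _)
      rw [hd0]
      exact min_le_right _ _
    obtain ⟨w, hw1, hw2⟩ := huni (S.α g) _ hz1 fun u hu => hcom u (hsub hu)
    have hwn : 1 - η' ≤ ‖T.ι w‖ := by
      have h2 : ‖T.ι ((r : ℂ) • z)‖ ≤ ‖T.ι ((r : ℂ) • z - w)‖ + ‖T.ι w‖ := by
        have h3 : T.ι ((r : ℂ) • z) = T.ι ((r : ℂ) • z - w) + T.ι w := by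
          rw [← map_add, sub_add_cancel]
        calc ‖T.ι ((r : ℂ) • z)‖ = ‖T.ι ((r : ℂ) • z - w) + T.ι w‖ := by rw [← h3]
          _ ≤ _ := norm_add_le _ _
      rw [hz1] at h2
      rw [hε] at hw2
      linarith
    obtain ⟨u, hu, hu'⟩ := hfar g hgL w hw1 hwn
    have hu1 := (hFF u hu).1
    have hu2 := (hFF u hu).2
    have hfu : S.α g u * star (S.α g u) = 1 := by rw [← map_star, ← map_mul, hu2, map_one]
    have e1 : u * w - w * S.α g u = (u * ((r : ℂ) • z) - ((r : ℂ) • z) * S.α g u)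
        - u * ((r : ℂ) • z - w) + ((r : ℂ) • z - w) * S.α g u := by
      noncomm_ring
    have n2 : ‖T.ι (u * ((r : ℂ) • z - w))‖ ≤ ε := by
      rw [T.norm_unitary_mul _ hu1]; exact hw2
    have n3 : ‖T.ι (((r : ℂ) • z - w) * S.α g u)‖ ≤ ε := by
      rw [T.norm_mul_unitary _ hfu]; exact hw2
    rw [e1, map_add, map_sub] at hu'
    have a1 := norm_add_le (T.ι (u * ((r : ℂ) • z) - ((r : ℂ) • z) * S.α g u)
      - T.ι (u * ((r : ℂ) • z - w))) (T.ι (((r : ℂ) • z - w) * S.α g u))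
    have a2 := norm_sub_le (T.ι (u * ((r : ℂ) • z) - ((r : ℂ) • z) * S.α g u))
      (T.ι (u * ((r : ℂ) • z - w)))
    have a3 := hcom u hu
    rw [hε] at n2 n3 hdε
    linarith

end

section
variable {A : Type u} [CStarAlgebra A] {K : Type v} [NormedAddCommGroup K]
  [InnerProductSpace ℂ K] {T : TrAlg A K}
variable {G : Type w} [Group G] [TopologicalSpace G] (S : TrAct G T)

/-- `ρ(g) = τ(T_g^{2k} 1) = |T_g^k 1|²` -/
noncomputable def TrAct.rho (X : USys A) (k : ℕ) (g : G) : ℝ :=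
  ‖T.ι ((X.tw (S.α g) ^ k) 1)‖ ^ 2

theorem TrAct.rho_nonneg (X : USys A) (k : ℕ) (g : G) : 0 ≤ S.rho X k g := sq_nonneg _

theorem TrAct.rho_le_one (X : USys A) (k : ℕ) (g : G) : S.rho X k g ≤ 1 := by
  have h1 := X.norm_pow_le T (S.α g) k 1
  rw [T.norm_one] at h1
  exact pow_le_one₀ (norm_nonneg _) h1

theorem TrAct.τ_pow (X : USys A) (k : ℕ) (g : G) :
    T.τ ((X.tw (S.α g) ^ (2 * k)) 1) = (S.rho X k g : ℂ) := by
  unfold TrAlg.τ TrAct.rho
  rw [two_mul, pow_add, Module.End.mul_apply, ← X.inner_pow, inner_self_eq_norm_sq_to_K]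
  norm_cast

theorem TrAct.rho_cont (X : USys A) (k : ℕ) : Continuous (S.rho X k) := by
  obtain ⟨J, hJ, x, hx⟩ := X.exists_words (2 * k)
  have h1 : ∀ g, (S.rho X k g) = (∑ j, inner ℂ (T.ι (x j)) (T.ι (S.α g (x j)))).re := by
    intro g
    have h2 := S.τ_pow X k g
    rw [← hx (S.α g) 1] at h2
    have h3 : T.τ (∑ j, star (x j) * 1 * S.α g (x j))
        = ∑ j, inner ℂ (T.ι (x j)) (T.ι (S.α g (x j))) := by
      unfold TrAlg.τ
      rw [map_sum, inner_sum]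
      refine Finset.sum_congr rfl fun j _ => ?_
      rw [mul_one, T.inner_eq_τ, T.inner_eq_τ, star_one, one_mul]
    rw [← h3, h2, Complex.ofReal_re]
  have h2 : S.rho X k = fun g => (∑ j, inner ℂ (T.ι (x j)) (T.ι (S.α g (x j)))).re := funext h1
  rw [h2]
  refine Complex.continuous_re.comp (continuous_finsetSum _ fun j _ => ?_)
  exact continuous_const.inner (S.cont (x j))

theorem TrAct.rho_lower (X : USys A) (k : ℕ) (g : G) : (S.rho X 1 g) ^ k ≤ S.rho X k g := by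
  unfold TrAct.rho
  have h1 := logconv_lower (fun n => ‖T.ι ((X.tw (S.α g) ^ n) 1)‖) (fun _ => norm_nonneg _)
    (fun n => X.logconv T (S.α g) n 1) (by rw [pow_zero, Module.End.one_apply, T.norm_one]) k
  rw [← pow_mul, mul_comm, pow_mul]
  exact pow_le_pow_left₀ (pow_nonneg (norm_nonneg _) _) h1 2

theorem TrAct.rho_one (X : USys A) (k : ℕ) : S.rho X k 1 = 1 := by
  have h1 : ∀ n : ℕ, (X.tw (S.α 1) ^ n) 1 = 1 := by
    intro n
    induction n with
    | zero => rw [pow_zero, Module.End.one_apply]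
    | succ n ih =>
      rw [pow_succ', Module.End.mul_apply, ih, X.tw_apply]
      have h2 : ∀ i, star (X.u i) * 1 * S.α 1 (X.u i) = 1 := fun i => by
        rw [S.one, mul_one, X.sl]
      simp only [h2]
      have hm : (X.m : ℂ) ≠ 0 := by exact_mod_cast X.m_pos.ne'
      rw [Finset.sum_const, Finset.card_univ, ← Nat.cast_smul_eq_nsmul ℂ, smul_smul]
      change ((X.m : ℂ)⁻¹ * (X.m : ℂ)) • (1 : A) = 1
      rw [inv_mul_cancel₀ hm, one_smul]
  unfold TrAct.rho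
  rw [h1, T.norm_one, one_pow]

/-- the estimate of the iterates near the unit and on `L` -/
theorem TrAct.exists_kernel_iter {S : TrAct G T} (hout : S.Outer) {F0 : Finset A} {C0 : ℝ}
    (hg : T.Gap F0 C0) (δ : ℝ) (hδ : 0 < δ) (hδ1 : δ ≤ 1 / 2) :
    ∃ V1 ∈ 𝓝 (1 : G), ∀ L : Set G, IsCompact L → (1 : G) ∉ L →
      ∃ (X : USys A) (q : ℝ), 0 ≤ q ∧ q < 1 ∧ ∀ k : ℕ,
        (∀ g ∈ V1 ∪ L, ∀ y : A,
          ‖T.ι ((X.tw (S.α g) ^ (2 * k)) y - (T.τ y * (S.rho X k g : ℂ)) • (1 : A))‖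
            ≤ 6 * (δ * S.rho X k g + q ^ (2 * k)) * ‖T.ι y‖) ∧
        (∀ g ∈ L, S.rho X k g ≤ q ^ (2 * k)) := by
  obtain ⟨V1, hV1, hker⟩ := S.exists_kernel hout hg δ hδ
  refine ⟨V1, hV1, fun L hL h1 => ?_⟩
  obtain ⟨X, q, hq0, hq1, hnear, hfar⟩ := hker L hL h1
  refine ⟨X, q, hq0, hq1, fun k => ?_⟩
  have hrL : ∀ g ∈ L, S.rho X k g ≤ q ^ (2 * k) := by
    intro g hgL
    have h2 := X.far_iter T (S.α g) q hq0 (hfar g hgL) k 1
    rw [T.norm_one, mul_one] at h2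
    unfold TrAct.rho
    rw [mul_comm 2 k, pow_mul]
    exact pow_le_pow_left₀ (norm_nonneg _) h2 2
  refine ⟨fun g hgVL y => ?_, hrL⟩
  rcases hgVL with hgV | hgL
  · have h2 := X.near_iter T (S.α g) δ q hδ.le hδ1 hq0 (hnear g hgV) (2 * k) y
    rw [S.τ_pow, Complex.norm_real, Real.norm_of_nonneg (S.rho_nonneg X k g)] at h2
    exact h2
  · have h2 := X.far_iter T (S.α g) q hq0 (hfar g hgL) (2 * k) y
    rw [map_sub]
    refine (norm_sub_le _ _).trans ?_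
    rw [T.norm_ι_scalar, norm_mul, Complex.norm_real, Real.norm_of_nonneg (S.rho_nonneg X k g)]
    have h3 := T.norm_τ_le y
    have h4 := hrL g hgL
    have h5 : ‖T.τ y‖ * S.rho X k g ≤ ‖T.ι y‖ * q ^ (2 * k) :=
      mul_le_mul h3 h4 (S.rho_nonneg X k g) (norm_nonneg _)
    have h6 : 0 ≤ δ * S.rho X k g * ‖T.ι y‖ :=
      mul_nonneg (mul_nonneg hδ.le (S.rho_nonneg X k g)) (norm_nonneg _)
    have h7 : 0 ≤ q ^ (2 * k) * ‖T.ι y‖ := mul_nonneg (pow_nonneg hq0 _) (norm_nonneg _)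
    nlinarith

end

end Pool.Agent.AbCoc
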