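import Pool.Agent.Lib_MP_418a80_gap.Gap4

/-!
# Spectral gap, part 5: orbit integrals of families of words
-/

set_option autoImplicit false
set_option linter.unusedVariables false
set_option linter.unusedSectionVars false

open Topology Filter MeasureTheory
open scoped ENNReal Pointwise

namespace Pool.Agent.AbCoc

universe u v w

section
variable {A : Type u} [CStarAlgebra A] {K : Type v} [NormedAddCommGroup K]
  [InnerProductSpace ℂ K] [CompleteSpace K]
variable {G : Type w} [Group G] [TopologicalSpace G] [IsTopologicalGroup G]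
  [SecondCountableTopology G] [LocallyCompactSpace G] [T2Space G]
  [MeasurableSpace G] [BorelSpace G] (μ : Measure G) [μ.IsHaarMeasure] {T : TrAlg A K}
  (S : TrAct G T)

/-- `a` is the orbit integral `∫ φ(t) α_t(x) dt` -/
def TrAct.IsOrb (φ : G → ℝ) (x a : A) : Prop := T.ι a = ∫ t, φ t • T.ι (S.α t x) ∂μ

variable {S}

theorem TrAct.orb_integrable {φ : G → ℝ} (hφ : Integrable φ μ) (x : A) :
    Integrable (fun t => φ t • T.ι (S.α t x)) μ := by
  refine Integrable.mono' (g := fun t => |φ t| * ‖T.ι x‖) (hφ.abs.mul_const _)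
    (hφ.aestronglyMeasurable.smul (S.cont x).aestronglyMeasurable)
    (Filter.Eventually.of_forall fun t => ?_)
  rw [norm_smul, Real.norm_eq_abs, S.norm_map]

theorem TrAct.exists_orb {φ : G → ℝ} (hφ : Integrable φ μ) (h0 : ∀ t, 0 ≤ φ t)
    (hpos : 0 < ∫ t, φ t ∂μ) (x : A) : ∃ a : A, S.IsOrb μ φ x a := by
  obtain ⟨c, hc⟩ : ∃ c : ℝ, c = ∫ t, φ t ∂μ := ⟨_, rfl⟩
  rw [← hc] at hpos
  obtain ⟨F, hF⟩ : ∃ F : G → ℝ, F = fun t => c⁻¹ * φ t := ⟨_, rfl⟩
  have hFi : Integrable F μ := by rw [hF]; exact hφ.const_mul _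
  have hF0 : ∀ t, 0 ≤ F t := fun t => by
    rw [hF]
    exact mul_nonneg (inv_nonneg.2 hpos.le) (h0 t)
  have hF1 : ∫ t, F t ∂μ = 1 := by
    rw [hF, integral_const_mul, ← hc, inv_mul_cancel₀ hpos.ne']
  set ν : Measure G := μ.withDensity fun t => ENNReal.ofReal (F t) with hν
  have hFm : AEMeasurable (fun t => (F t).toNNReal) μ :=
    hFi.aestronglyMeasurable.aemeasurable.real_toNNReal
  have hprob : IsProbabilityMeasure ν := by
    constructor
    rw [hν, withDensity_apply _ MeasurableSet.univ, Measure.restrict_univ,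
      ← ofReal_integral_eq_lintegral_ofReal hFi (Filter.Eventually.of_forall hF0), hF1,
      ENNReal.ofReal_one]
  have hint : ∫ t, T.ι (S.α t x) ∂ν = ∫ t, F t • T.ι (S.α t x) ∂μ := by
    have h1 : ν = μ.withDensity fun t => ((F t).toNNReal : ENNReal) := rfl
    rw [h1, integral_withDensity_eq_integral_smul₀ hFm]
    refine integral_congr_ae (Filter.Eventually.of_forall fun t => ?_)
    change (F t).toNNReal • T.ι (S.α t x) = F t • T.ι (S.α t x)
    rw [NNReal.smul_def, Real.coe_toNNReal _ (hF0 t)]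
  have hi : Integrable (fun t => T.ι (S.α t x)) ν := by
    refine Integrable.of_bound (S.cont x).aestronglyMeasurable ‖T.ι x‖
      (Filter.Eventually.of_forall fun t => ?_)
    rw [S.norm_map]
  have h2 : ∫ t, T.ι (S.α t x) ∂ν ∈ S.W.hull (T.ι x) := by
    refine (S.W.convex_hull _).integral_mem (S.W.isClosed_hull _)
      (Filter.Eventually.of_forall fun t => ?_) hi
    have h3 := S.W.orbit_mem_hull (T.ι x) t
    rwa [S.W_U, S.U_ι] at h3
  obtain ⟨a, ha⟩ := S.hull_ι x _ h2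
  refine ⟨(c : ℂ) • a, ?_⟩
  unfold TrAct.IsOrb
  rw [map_smul, ha, hint, Complex.coe_smul, ← integral_smul]
  refine integral_congr_ae (Filter.Eventually.of_forall fun t => ?_)
  change c • F t • T.ι (S.α t x) = φ t • T.ι (S.α t x)
  rw [smul_smul, hF]
  congr 1
  field_simp

theorem TrAct.IsOrb.inner_left {φ : G → ℝ} (hφ : Integrable φ μ) {x a : A}
    (ha : S.IsOrb μ φ x a) (ζ : K) :
    inner ℂ (T.ι a) ζ = ∫ t, (φ t : ℂ) * inner ℂ (T.ι (S.α t x)) ζ ∂μ := by
  have h1 : inner ℂ ζ (T.ι a) = ∫ t, (φ t : ℂ) * inner ℂ ζ (T.ι (S.α t x)) ∂μ := by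
    have h2 : T.ι a = ∫ t, φ t • T.ι (S.α t x) ∂μ := ha
    rw [h2, ← integral_inner (TrAct.orb_integrable μ hφ x)]
    refine integral_congr_ae (Filter.Eventually.of_forall fun t => ?_)
    change inner ℂ ζ (φ t • T.ι (S.α t x)) = (φ t : ℂ) * inner ℂ ζ (T.ι (S.α t x))
    rw [← Complex.coe_smul, inner_smul_right]
  rw [← inner_conj_symm, h1, ← integral_conj]
  refine integral_congr_ae (Filter.Eventually.of_forall fun t => ?_)
  change (starRingEnd ℂ) ((φ t : ℂ) * inner ℂ ζ (T.ι (S.α t x)))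
    = (φ t : ℂ) * inner ℂ (T.ι (S.α t x)) ζ
  rw [map_mul, Complex.conj_ofReal, inner_conj_symm]

theorem TrAct.IsOrb.inner_right {φ : G → ℝ} (hφ : Integrable φ μ) {x a : A}
    (ha : S.IsOrb μ φ x a) (ζ : K) :
    inner ℂ ζ (T.ι a) = ∫ t, (φ t : ℂ) * inner ℂ ζ (T.ι (S.α t x)) ∂μ := by
  have h2 : T.ι a = ∫ t, φ t • T.ι (S.α t x) ∂μ := ha
  rw [h2, ← integral_inner (TrAct.orb_integrable μ hφ x)]
  refine integral_congr_ae (Filter.Eventually.of_forall fun t => ?_)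
  change inner ℂ ζ (φ t • T.ι (S.α t x)) = (φ t : ℂ) * inner ℂ ζ (T.ι (S.α t x))
  rw [← Complex.coe_smul, inner_smul_right]

/-- translation of an orbit integral -/
theorem TrAct.IsOrb.translate {φ : G → ℝ} (hφ : Integrable φ μ) {x a : A}
    (ha : S.IsOrb μ φ x a) (s : G) : S.IsOrb μ (fun t => φ (s⁻¹ * t)) x (S.α s a) := by
  have hh : T.ι a = ∫ t, φ t • T.ι (S.α t x) ∂μ := ha
  unfold TrAct.IsOrb
  rw [← S.U_ι, hh, ← ContinuousLinearMap.integral_comp_comm _ (TrAct.orb_integrable μ hφ x)]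
  have h2 : ∀ t, S.U.U s (φ t • T.ι (S.α t x)) = φ t • T.ι (S.α (s * t) x) := by
    intro t
    rw [← Complex.coe_smul, map_smul, S.U_ι, ← S.mul, Complex.coe_smul]
  rw [integral_congr_ae (Filter.Eventually.of_forall h2)]
  have h3 := integral_mul_left_eq_self (μ := μ) (fun t => φ (s⁻¹ * t) • T.ι (S.α t x)) s
  rw [← h3]
  refine integral_congr_ae (Filter.Eventually.of_forall fun t => ?_)
  change φ t • T.ι (S.α (s * t) x) = φ (s⁻¹ * (s * t)) • T.ι (S.α (s * t) x)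
  rw [inv_mul_cancel_left]

theorem TrAct.cont_mul_mul (S : TrAct G T) (x y z : A) :
    Continuous fun t => T.ι (y * S.α t x * z) := by
  rw [continuous_iff_continuousAt]
  intro t0
  rw [ContinuousAt, tendsto_iff_norm_sub_tendsto_zero]
  have h1 : Tendsto (fun t => ‖y‖ * ‖T.ι (S.α t x) - T.ι (S.α t0 x)‖ * ‖z‖) (𝓝 t0) (𝓝 0) := by
    have h2 := tendsto_iff_norm_sub_tendsto_zero.1 ((S.cont x).tendsto t0)
    have h3 := (h2.const_mul ‖y‖).mul_const ‖z‖
    rwa [mul_zero, zero_mul] at h3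
  refine squeeze_zero (fun t => norm_nonneg _) (fun t => ?_) h1
  have e : y * S.α t x * z - y * S.α t0 x * z = y * (S.α t x - S.α t0 x) * z := by noncomm_ring
  rw [← map_sub, e, ← map_sub]
  exact (T.mul_le' _ _).trans (mul_le_mul_of_nonneg_right (T.mul_le _ _) (norm_nonneg _))

/-- the kernel is integrable against `φ ⊗ ψ` -/
theorem TrAct.kernel_integrable {φ ψ : G → ℝ} (hφ : Integrable φ μ) (hψ : Integrable ψ μ)
    (k : G × G → ℂ) (hk : Continuous k) (C : ℝ) (hC : ∀ p, ‖k p‖ ≤ C) :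
    Integrable (fun p : G × G => ((φ p.1 * ψ p.2 : ℝ) : ℂ) * k p) (μ.prod μ) := by
  have h1 : Integrable (fun p : G × G => φ p.1 * ψ p.2) (μ.prod μ) := hφ.mul_prod hψ
  have h2 : Integrable (fun p : G × G => ((φ p.1 * ψ p.2 : ℝ) : ℂ)) (μ.prod μ) := h1.ofReal
  refine Integrable.mono' (h1.abs.mul_const C)
    (h2.aestronglyMeasurable.mul hk.aestronglyMeasurable)
    (Filter.Eventually.of_forall fun p => ?_)
  rw [norm_mul, Complex.norm_real, Real.norm_eq_abs]
  exact mul_le_mul_of_nonneg_left (hC p) (abs_nonneg _)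

/-- pairing of two orbit integrals -/
theorem TrAct.IsOrb.pair {φ ψ : G → ℝ} (hφ : Integrable φ μ) (hψ : Integrable ψ μ) {x x' a b : A}
    (ha : S.IsOrb μ φ x a) (hb : S.IsOrb μ ψ x' b) (y z : A) :
    T.τ (star a * (y * b * z)) = ∫ p : G × G, ((φ p.1 * ψ p.2 : ℝ) : ℂ)
      * T.τ (star (S.α p.1 x) * (y * S.α p.2 x' * z)) ∂(μ.prod μ) := by
  have hk : Continuous fun p : G × G => T.τ (star (S.α p.1 x) * (y * S.α p.2 x' * z)) := by
    simp only [← T.inner_eq_τ]
    exact ((S.cont x).comp continuous_fst).inner ((S.cont_mul_mul x' y z).comp continuous_snd)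
  have hC : ∀ p : G × G, ‖T.τ (star (S.α p.1 x) * (y * S.α p.2 x' * z))‖
      ≤ ‖T.ι x‖ * (‖y‖ * ‖T.ι x'‖ * ‖z‖) := by
    intro p
    rw [← T.inner_eq_τ]
    refine (norm_inner_le_norm _ _).trans ?_
    rw [S.norm_map]
    refine mul_le_mul_of_nonneg_left ?_ (norm_nonneg _)
    refine (T.mul_le' _ _).trans (mul_le_mul_of_nonneg_right ?_ (norm_nonneg _))
    refine (T.mul_le _ _).trans ?_
    rw [S.norm_map]
  have hint := TrAct.kernel_integrable μ hφ hψ _ hk _ hC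
  rw [integral_prod_symm _ hint]
  have h1 : T.τ (star a * (y * b * z)) = inner ℂ (T.ι (star y * a * star z)) (T.ι b) := by
    rw [T.right, T.left]
    simp only [star_star]
    rw [T.inner_eq_τ, mul_assoc]
  rw [h1, hb.inner_right μ hψ]
  refine integral_congr_ae (Filter.Eventually.of_forall fun t' => ?_)
  change (ψ t' : ℂ) * inner ℂ (T.ι (star y * a * star z)) (T.ι (S.α t' x'))
    = ∫ t, ((φ t * ψ t' : ℝ) : ℂ) * T.τ (star (S.α t x) * (y * S.α t' x' * z)) ∂μ
  have h2 : inner ℂ (T.ι (star y * a * star z)) (T.ι (S.α t' x'))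
      = inner ℂ (T.ι a) (T.ι (y * S.α t' x' * z)) := by
    rw [T.right, T.left]
    simp only [star_star]
    rw [mul_assoc]
  rw [h2, ha.inner_left μ hφ, ← integral_const_mul]
  refine integral_congr_ae (Filter.Eventually.of_forall fun t => ?_)
  change (ψ t' : ℂ) * ((φ t : ℂ) * inner ℂ (T.ι (S.α t x)) (T.ι (y * S.α t' x' * z)))
    = ((φ t * ψ t' : ℝ) : ℂ) * T.τ (star (S.α t x) * (y * S.α t' x' * z))
  rw [T.inner_eq_τ, Complex.ofReal_mul]
  ring

theorem TrAct.τ_map (S : TrAct G T) (g : G) (a : A) : T.τ (S.α g a) = T.τ a := by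
  unfold TrAlg.τ
  have h := S.inner_map g 1 a
  rwa [map_one] at h

/-- the sum over the words -/
theorem TrAct.sum_words (S : TrAct G T) (X : USys A) (n : ℕ) {J : Type} [Fintype J] (x : J → A)
    (hx : ∀ (f : A →⋆ₐ[ℂ] A) (z : A), ∑ j, star (x j) * z * f (x j) = (X.tw f ^ n) z)
    (s t : G) (y z : A) :
    ∑ j, T.τ (star (S.α s (x j)) * (y * S.α t (x j) * z))
      = T.τ ((X.tw (S.α (s⁻¹ * t)) ^ n) (S.α s⁻¹ y) * S.α s⁻¹ z) := by
  rw [← hx (S.α (s⁻¹ * t)) (S.α s⁻¹ y)]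
  have h1 : ∀ j, T.τ (star (S.α s (x j)) * (y * S.α t (x j) * z))
      = T.τ (star (x j) * S.α s⁻¹ y * S.α (s⁻¹ * t) (x j) * S.α s⁻¹ z) := by
    intro j
    rw [← S.τ_map s⁻¹, map_mul, map_mul, map_mul, ← map_star, S.inv_apply, S.mul]
    congr 1
    noncomm_ring
  rw [Finset.sum_congr rfl fun j _ => h1 j]
  unfold TrAlg.τ
  rw [Finset.sum_mul, map_sum, inner_sum]

/-- the pairings of the orbit integrals of the family of words -/
theorem TrAct.fam_pair (S : TrAct G T) (X : USys A) (n : ℕ) {J : Type} [Fintype J] (x : J → A)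
    (hx : ∀ (f : A →⋆ₐ[ℂ] A) (z : A), ∑ j, star (x j) * z * f (x j) = (X.tw f ^ n) z)
    {φ ψ : G → ℝ} (hφ : Integrable φ μ) (hψ : Integrable ψ μ) (a b : J → A)
    (ha : ∀ j, S.IsOrb μ φ (x j) (a j)) (hb : ∀ j, S.IsOrb μ ψ (x j) (b j)) (y z : A) :
    Integrable (fun p : G × G => ((φ p.1 * ψ p.2 : ℝ) : ℂ)
      * T.τ ((X.tw (S.α (p.1⁻¹ * p.2)) ^ n) (S.α p.1⁻¹ y) * S.α p.1⁻¹ z)) (μ.prod μ) ∧
    ∑ j, T.τ (star (a j) * (y * b j * z)) = ∫ p : G × G, ((φ p.1 * ψ p.2 : ℝ) : ℂ)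
      * T.τ ((X.tw (S.α (p.1⁻¹ * p.2)) ^ n) (S.α p.1⁻¹ y) * S.α p.1⁻¹ z) ∂(μ.prod μ) := by
  have hint : ∀ j, Integrable (fun p : G × G => ((φ p.1 * ψ p.2 : ℝ) : ℂ)
      * T.τ (star (S.α p.1 (x j)) * (y * S.α p.2 (x j) * z))) (μ.prod μ) := by
    intro j
    refine TrAct.kernel_integrable μ hφ hψ _ ?_ (‖T.ι (x j)‖ * (‖y‖ * ‖T.ι (x j)‖ * ‖z‖)) ?_
    · simp only [← T.inner_eq_τ]
      exact ((S.cont _).comp continuous_fst).inner ((S.cont_mul_mul _ y z).comp continuous_snd)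
    · intro p
      rw [← T.inner_eq_τ]
      refine (norm_inner_le_norm _ _).trans ?_
      rw [S.norm_map]
      refine mul_le_mul_of_nonneg_left ?_ (norm_nonneg _)
      refine (T.mul_le' _ _).trans (mul_le_mul_of_nonneg_right ?_ (norm_nonneg _))
      refine (T.mul_le _ _).trans ?_
      rw [S.norm_map]
  have hsum : ∀ p : G × G, ∑ j, ((φ p.1 * ψ p.2 : ℝ) : ℂ)
        * T.τ (star (S.α p.1 (x j)) * (y * S.α p.2 (x j) * z))
      = ((φ p.1 * ψ p.2 : ℝ) : ℂ)
        * T.τ ((X.tw (S.α (p.1⁻¹ * p.2)) ^ n) (S.α p.1⁻¹ y) * S.α p.1⁻¹ z) := by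
    intro p
    rw [← Finset.mul_sum, S.sum_words X n x hx]
  constructor
  · have h1 := integrable_finsetSum (μ := μ.prod μ) Finset.univ fun j (_ : j ∈ Finset.univ) => hint j
    refine h1.congr (Filter.Eventually.of_forall fun p => ?_)
    simp only
    exact hsum p
  · rw [Finset.sum_congr rfl fun j _ => (ha j).pair μ hφ hψ (hb j) y z,
      ← integral_finsetSum _ fun j _ => hint j]
    exact integral_congr_ae (Filter.Eventually.of_forall hsum)

omit [T2Space G] [CompleteSpace K] in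
/-- the shear `(t, t') = (t, t g)` -/
theorem shear_integral {φ ψ ρ : G → ℝ} (hφ : Integrable φ μ) (hψ : Integrable ψ μ)
    (hρ : Continuous ρ) (C : ℝ) (hC : ∀ g, |ρ g| ≤ C) :
    Integrable (fun p : G × G => φ p.1 * ψ p.2 * ρ (p.1⁻¹ * p.2)) (μ.prod μ) ∧
    Integrable (fun g => ρ g * ∫ t, φ t * ψ (t * g) ∂μ) μ ∧
    ∫ p : G × G, φ p.1 * ψ p.2 * ρ (p.1⁻¹ * p.2) ∂(μ.prod μ)
      = ∫ g, ρ g * (∫ t, φ t * ψ (t * g) ∂μ) ∂μ := by
  have h0 : Integrable (fun p : G × G => φ p.1 * ψ p.2) (μ.prod μ) := hφ.mul_prod hψ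
  have hρc : Continuous fun p : G × G => ρ (p.1⁻¹ * p.2) :=
    hρ.comp ((continuous_fst.inv).mul continuous_snd)
  have h1 : Integrable (fun p : G × G => φ p.1 * ψ p.2 * ρ (p.1⁻¹ * p.2)) (μ.prod μ) := by
    refine Integrable.mono' (h0.abs.mul_const C)
      (h0.aestronglyMeasurable.mul hρc.aestronglyMeasurable)
      (Filter.Eventually.of_forall fun p => ?_)
    rw [norm_mul, Real.norm_eq_abs, Real.norm_eq_abs]
    exact mul_le_mul_of_nonneg_left (hC _) (abs_nonneg _)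
  have hmp := measurePreserving_prod_mul μ μ
  have hme : MeasurableEmbedding fun z : G × G => (z.1, z.1 * z.2) :=
    (MeasurableEquiv.shearMulRight G).measurableEmbedding
  have h2 : Integrable (fun p : G × G => φ p.1 * ψ (p.1 * p.2) * ρ p.2) (μ.prod μ) := by
    have h3 := hmp.integrable_comp_of_integrable h1
    refine h3.congr (Filter.Eventually.of_forall fun p => ?_)
    simp only [Function.comp, inv_mul_cancel_left]
  have h3 : ∫ p : G × G, φ p.1 * ψ p.2 * ρ (p.1⁻¹ * p.2) ∂(μ.prod μ)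
      = ∫ p : G × G, φ p.1 * ψ (p.1 * p.2) * ρ p.2 ∂(μ.prod μ) := by
    rw [← hmp.integral_comp hme]
    refine integral_congr_ae (Filter.Eventually.of_forall fun p => ?_)
    simp only [inv_mul_cancel_left]
  have h4 : ∀ g, ∫ t, φ t * ψ (t * g) * ρ g ∂μ = ρ g * ∫ t, φ t * ψ (t * g) ∂μ := fun g => by
    rw [integral_mul_const, mul_comm]
  refine ⟨h1, ?_, ?_⟩
  · have h5 := h2.integral_prod_right
    simp only [h4] at h5
    exact h5
  · rw [h3, integral_prod_symm _ h2]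
    simp only [h4]

end

end Pool.Agent.AbCoc
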