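import Pool.Agent.Lib_MP_418a80_gap.Gap5
import Pool.Agent.Lib_MP_418a80_hyp.HZ

/-!
# Spectral gap, part 6: near-invariant families with almost scalar covariances
-/

set_option autoImplicit false
set_option linter.unusedVariables false
set_option linter.unusedSectionVars false

open Topology Filter MeasureTheory
open scoped ENNReal Pointwise

namespace Pool.Agent.AbCoc

universe u v w

section
variable {G : Type w} [Group G] [TopologicalSpace G] [IsTopologicalGroup G] [NoncompactSpace G]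

/-- many points which are far apart -/
theorem exists_spread (Q : Set G) (hQ : IsCompact Q) (m : ℕ) :
    ∃ F : Finset G, F.card = m ∧ ∀ a ∈ F, ∀ b ∈ F, a ≠ b → a⁻¹ * b ∉ Q := by
  classical
  induction m with
  | zero => exact ⟨∅, rfl, by simp⟩
  | succ m ih =>
    obtain ⟨F, hF1, hF2⟩ := ih
    have hc : IsCompact (((F : Set G) * (Q ∪ Q⁻¹)) ∪ (F : Set G)) :=
      (F.finite_toSet.isCompact.mul (hQ.union hQ.inv)).union F.finite_toSet.isCompact
    obtain ⟨s, hs⟩ := (Set.ne_univ_iff_exists_notMem _).1 hc.ne_univ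
    have hsF : s ∉ F := fun h => hs (Or.inr (Finset.mem_coe.2 h))
    have h1 : ∀ a ∈ F, a⁻¹ * s ∉ Q ∧ s⁻¹ * a ∉ Q := by
      intro a ha
      constructor
      · intro h
        refine hs (Or.inl ?_)
        have := Set.mul_mem_mul (Finset.mem_coe.2 ha) (Set.mem_union_left Q⁻¹ h)
        rwa [mul_inv_cancel_left] at this
      · intro h
        refine hs (Or.inl ?_)
        have h2 : a⁻¹ * s ∈ Q⁻¹ := by
          rw [Set.mem_inv, mul_inv_rev, inv_inv]
          exact h
        have := Set.mul_mem_mul (Finset.mem_coe.2 ha) (Set.mem_union_right Q h2)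
        rwa [mul_inv_cancel_left] at this
    refine ⟨insert s F, by rw [Finset.card_insert_of_notMem hsF, hF1], ?_⟩
    intro a ha b hb hab
    rcases Finset.mem_insert.1 ha with ha | ha
    · rcases Finset.mem_insert.1 hb with hb | hb
      · exact absurd (ha.trans hb.symm) hab
      · rw [ha]
        exact (h1 b hb).2
    · rcases Finset.mem_insert.1 hb with hb | hb
      · rw [hb]
        exact (h1 a ha).1
      · exact hF2 a ha b hb hab

end

section
variable {G : Type w} [Group G] [TopologicalSpace G] [IsTopologicalGroup G]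
  [SecondCountableTopology G] [LocallyCompactSpace G] [T2Space G]
  [MeasurableSpace G] [BorelSpace G] (μ : Measure G) [μ.IsHaarMeasure]

/-- Reiter's condition `(P₂)` -/
theorem Reiter.exists_two (h : Reiter μ) (D : Set G) (hD : IsCompact D) (κ : ℝ) (hκ : 0 < κ) :
    ∃ φ : G → ℝ, Continuous φ ∧ HasCompactSupport φ ∧ (∀ t, 0 ≤ φ t) ∧
      ∫ t, φ t * φ t ∂μ = 1 ∧ 0 < ∫ t, φ t ∂μ ∧
      ∀ s ∈ D, (∫ t, φ t * φ t ∂μ) - ∫ t, φ t * φ (s⁻¹ * t) ∂μ ≤ κ := by
  obtain ⟨F, hF, hFc, hF0, hF1, hFD⟩ := h D hD κ hκ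
  obtain ⟨φ, hφ⟩ : ∃ φ : G → ℝ, φ = fun t => Real.sqrt (F t) := ⟨_, rfl⟩
  have hφc : Continuous φ := by rw [hφ]; exact Real.continuous_sqrt.comp hF
  have hφs : HasCompactSupport φ := by
    rw [hφ]
    exact hFc.comp_left Real.sqrt_zero
  have hφ0 : ∀ t, 0 ≤ φ t := fun t => by rw [hφ]; exact Real.sqrt_nonneg _
  have hsq : ∀ t, φ t * φ t = F t := fun t => by rw [hφ]; exact Real.mul_self_sqrt (hF0 t)
  have hφi : Integrable φ μ := hφc.integrable_of_hasCompactSupport hφs
  have hFi : Integrable F μ := hF.integrable_of_hasCompactSupport hFc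
  have hone : ∫ t, φ t * φ t ∂μ = 1 := by simp only [hsq]; exact hF1
  refine ⟨φ, hφc, hφs, hφ0, hone, ?_, ?_⟩
  · rcases (integral_nonneg hφ0 : 0 ≤ ∫ t, φ t ∂μ).eq_or_lt with h1 | h1
    · have h2 := (integral_eq_zero_iff_of_nonneg hφ0 hφi).1 h1.symm
      have h3 : ∫ t, φ t * φ t ∂μ = 0 := by
        rw [integral_eq_zero_of_ae]
        filter_upwards [h2] with t ht
        rw [ht]
        simp
      rw [hone] at h3
      exact absurd h3 one_ne_zero
    · exact h1
  · intro s hs
    have hφs' : Continuous fun t => φ t * φ (s⁻¹ * t) :=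
      hφc.mul (hφc.comp (continuous_const_mul s⁻¹))
    have hi1 : Integrable (fun t => φ t * φ t) μ := by simp only [hsq]; exact hFi
    have hi2 : Integrable (fun t => φ t * φ (s⁻¹ * t)) μ :=
      hφs'.integrable_of_hasCompactSupport hφs.mul_right
    rw [← integral_sub hi1 hi2]
    refine le_trans ?_ (hFD s hs)
    refine integral_mono (hi1.sub hi2) ((hFi.comp_mul_left s⁻¹).sub hFi).abs fun t => ?_
    change φ t * φ t - φ t * φ (s⁻¹ * t) ≤ |F (s⁻¹ * t) - F t|
    rw [← hsq (s⁻¹ * t), ← hsq t]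
    have a0 := hφ0 t
    have b0 := hφ0 (s⁻¹ * t)
    rcases le_total (φ t) (φ (s⁻¹ * t)) with h1 | h1
    · have h2 : φ t * φ t - φ t * φ (s⁻¹ * t) ≤ 0 := by nlinarith
      exact h2.trans (abs_nonneg _)
    · refine le_trans ?_ (neg_le_abs _)
      nlinarith

/-- `Φ(s, g) = ∫ φ(t) φ(s⁻¹ t g) dt` is jointly continuous -/
theorem corr_cont {φ : G → ℝ} (hφ : Continuous φ) (hφc : HasCompactSupport φ) :
    Continuous fun p : G × G => ∫ t, φ t * φ (p.2⁻¹ * (t * p.1)) ∂μ := by
  have h1 : ∀ p : G × G, ∫ t, φ t * φ (p.2⁻¹ * (t * p.1)) ∂μ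
      = ∫ t in tsupport φ, φ t * φ (p.2⁻¹ * (t * p.1)) ∂μ := by
    intro p
    refine (setIntegral_eq_integral_of_forall_compl_eq_zero fun t ht => ?_).symm
    rw [image_eq_zero_of_notMem_tsupport ht, zero_mul]
  simp only [h1]
  refine continuous_parametric_integral_of_continuous (f := fun (p : G × G) (t : G) =>
    φ t * φ (p.2⁻¹ * (t * p.1))) ?_ hφc.isCompact
  change Continuous fun q : (G × G) × G => φ q.2 * φ (q.1.2⁻¹ * (q.2 * q.1.1))
  refine (hφ.comp continuous_snd).mul (hφ.comp ?_)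
  exact (continuous_snd.comp continuous_fst).inv.mul
    (continuous_snd.mul (continuous_fst.comp continuous_fst))

end

end Pool.Agent.AbCoc
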