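import Pool.Agent.Lib_MP_418a80_gap.Gap6

/-!
# Spectral gap, part 7: the main estimate
-/

set_option autoImplicit false
set_option linter.unusedVariables false
set_option linter.unusedSectionVars false

open Topology Filter MeasureTheory
open scoped ENNReal Pointwise

namespace Pool.Agent.AbCoc

universe u v w

section
variable {A : Type u} [CStarAlgebra A] {K : Type v} [NormedAddCommGroup K]
  [InnerProductSpace ℂ K] [CompleteSpace K]
variable {G : Type w} [Group G] [TopologicalSpace G] [IsTopologicalGroup G]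
  [SecondCountableTopology G] [LocallyCompactSpace G] [T2Space G] [NoncompactSpace G]
  [MeasurableSpace G] [BorelSpace G] (μ : Measure G) [μ.IsHaarMeasure] {T : TrAlg A K}
  {S : TrAct G T}

/-- near-invariant families, almost orthogonal to the fixed points, with almost scalar
covariances -/
theorem TrAct.gap_family (hout : S.Outer) {F0 : Finset A} {C0 : ℝ} (hg : T.Gap F0 C0)
    (hR : Reiter μ) (D : Set G) (hD : IsCompact D) (κ : ℝ) (hκ : 0 < κ) (hκ1 : κ ≤ 1) :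
    ∃ (J : Type) (_ : Fintype J) (a : J → A) (N : ℝ), 0 < N ∧
      ∑ j, ‖T.ι (S.E (a j))‖ ^ 2 ≤ κ * N ∧
      (∀ s ∈ D, ∑ j, ‖T.ι (S.α s (a j) - a j)‖ ^ 2 ≤ κ * N) ∧
      ∀ y z : A, ‖(∑ j, T.τ (star (a j) * (y * a j * z))) - T.τ y * T.τ z * (N : ℂ)‖
        ≤ κ * N * (‖T.ι y‖ * ‖T.ι z‖) := by
  classical
  -- the parameters
  obtain ⟨δ, hδ⟩ : ∃ δ : ℝ, δ = κ / 16 := ⟨_, rfl⟩
  have hδp : 0 < δ := by rw [hδ]; positivity
  have hδ1 : δ ≤ 1 / 2 := by rw [hδ]; linarith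
  obtain ⟨φ, hφ, hφc, hφ0, hφ2, hφ1, hφD⟩ := hR.exists_two μ D hD δ hδp
  have hφi : Integrable φ μ := hφ.integrable_of_hasCompactSupport hφc
  obtain ⟨c1, hc1⟩ : ∃ c1 : ℝ, c1 = ∫ t, φ t ∂μ := ⟨_, rfl⟩
  have hc1p : 0 < c1 := by rw [hc1]; exact hφ1
  have hKc : IsCompact (tsupport φ) := hφc.isCompact
  have hsupp : ∀ t, φ t ≠ 0 → t ∈ tsupport φ := fun t ht => by
    by_contra h
    exact ht (image_eq_zero_of_notMem_tsupport h)
  obtain ⟨V0, hV0c, hV0⟩ := exists_compact_mem_nhds (1 : G)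
  -- far translates
  obtain ⟨m, hm⟩ := exists_nat_gt (2 / κ)
  have hm0 : (0 : ℝ) < m := (by positivity : (0 : ℝ) < 2 / κ).trans hm
  have hmκ : 1 / (m : ℝ) ≤ κ / 2 := by
    rw [div_lt_iff₀ hκ] at hm
    rw [div_le_iff₀ hm0]
    linarith
  obtain ⟨F, hFcard, hFfar⟩ := exists_spread (tsupport φ * V0 * (tsupport φ)⁻¹)
    ((hKc.mul hV0c).mul hKc.inv) m
  -- the kernel
  obtain ⟨V1, hV1, hker⟩ := S.exists_kernel_iter hout hg δ hδp hδ1
  -- the correlation function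
  have hcorr := corr_cont μ hφ hφc
  have hcorr1 : Continuous fun g : G => ∫ t, φ t * φ (t * g) ∂μ := by
    have h1 := hcorr.comp (continuous_id.prodMk (continuous_const (y := (1 : G))))
    simpa [Function.comp_def] using h1
  have hnb1 : ∀ᶠ g in 𝓝 (1 : G), 1 / 2 < ∫ t, φ t * φ (t * g) ∂μ := by
    have h1 := hcorr1.tendsto 1
    simp only [mul_one] at h1
    rw [hφ2] at h1
    exact h1.eventually (lt_mem_nhds (by norm_num))
  have hnb2 : ∀ᶠ g in 𝓝 (1 : G), ∀ s ∈ D,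
      (∫ t, φ t * φ (t * g) ∂μ) - ∫ t, φ t * φ (s⁻¹ * (t * g)) ∂μ < 2 * δ := by
    refine hD.eventually_forall_of_forall_eventually (P := fun g s =>
      (∫ t, φ t * φ (t * g) ∂μ) - ∫ t, φ t * φ (s⁻¹ * (t * g)) ∂μ < 2 * δ) fun s hs => ?_
    have h1 : Continuous fun z : G × G => (∫ t, φ t * φ (t * z.1) ∂μ)
        - ∫ t, φ t * φ (z.2⁻¹ * (t * z.1)) ∂μ := (hcorr1.comp continuous_fst).sub hcorr
    have h2 := h1.tendsto ((1 : G), s)
    simp only [mul_one] at h2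
    exact h2.eventually (gt_mem_nhds ((hφD s hs).trans_lt (by linarith)))
  obtain ⟨V, hVsub, hVo, h1V⟩ := mem_nhds_iff.1
    (Filter.inter_mem hV1 (Filter.inter_mem hV0 (Filter.inter_mem hnb1 hnb2)))
  have hV1' : ∀ g ∈ V, g ∈ V1 := fun g hg => (hVsub hg).1
  have hV0' : ∀ g ∈ V, g ∈ V0 := fun g hg => (hVsub hg).2.1
  have hVc1 : ∀ g ∈ V, 1 / 2 < ∫ t, φ t * φ (t * g) ∂μ := fun g hg => (hVsub hg).2.2.1
  have hVc2 : ∀ g ∈ V, ∀ s ∈ D,
      (∫ t, φ t * φ (t * g) ∂μ) - ∫ t, φ t * φ (s⁻¹ * (t * g)) ∂μ < 2 * δ :=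
    fun g hg => (hVsub hg).2.2.2
  have hVm : MeasurableSet V := hVo.measurableSet
  have hVfin : μ V < ∞ := (measure_mono fun g hg => hV0' g hg).trans_lt hV0c.measure_lt_top
  -- the compact set
  obtain ⟨Q, hQ⟩ : ∃ Q : Finset G, Q = insert 1 (Finset.image (fun p : G × G => p.1⁻¹ * p.2)
    (F ×ˢ F)) := ⟨_, rfl⟩
  obtain ⟨W, hW⟩ : ∃ W : Set G, W = (tsupport φ)⁻¹ * (Q : Set G) * tsupport φ := ⟨_, rfl⟩
  have hWc : IsCompact W := by
    rw [hW]
    exact (hKc.inv.mul Q.finite_toSet.isCompact).mul hKc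
  have hWmem : ∀ s ∈ Q, ∀ p : G × G, φ p.1 * φ (s⁻¹ * p.2) ≠ 0 → p.1⁻¹ * p.2 ∈ W := by
    intro s hs p hp
    have h1 := hsupp p.1 (left_ne_zero_of_mul hp)
    have h2 := hsupp (s⁻¹ * p.2) (right_ne_zero_of_mul hp)
    have h3 : p.1⁻¹ * p.2 = p.1⁻¹ * s * (s⁻¹ * p.2) := by group
    rw [hW, h3]
    exact Set.mul_mem_mul (Set.mul_mem_mul (Set.inv_mem_inv.2 h1) (Finset.mem_coe.2 hs)) h2
  have h1Q : (1 : G) ∈ Q := by rw [hQ]; exact Finset.mem_insert_self _ _
  obtain ⟨L, hL⟩ : ∃ L : Set G, L = W \ V := ⟨_, rfl⟩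
  have hLc : IsCompact L := by rw [hL]; exact hWc.diff hVo
  have h1L : (1 : G) ∉ L := by rw [hL]; exact fun h => h.2 h1V
  obtain ⟨X, q, hq0, hq1, hX⟩ := hker L hLc h1L
  have hWVL : ∀ g ∈ W, g ∈ V1 ∪ L := by
    intro g hg
    by_cases h : g ∈ V
    · exact Or.inl (hV1' g h)
    · right
      rw [hL]
      exact ⟨hg, h⟩
  -- the choice of `k`
  obtain ⟨r, hr⟩ : ∃ r : ℝ, r = (1 + q ^ 2) / 2 := ⟨_, rfl⟩
  have hq2 : q ^ 2 < 1 := by nlinarith
  have hr1 : r < 1 := by rw [hr]; linarith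
  have hr0 : 0 < r := by rw [hr]; positivity
  have hqr : q ^ 2 / r < 1 := by
    rw [div_lt_one hr0, hr]
    linarith
  obtain ⟨V', hV'⟩ : ∃ V' : Set G, V' = V ∩ {g | r < S.rho X 1 g} := ⟨_, rfl⟩
  have hV'o : IsOpen V' := by
    rw [hV']
    exact hVo.inter (isOpen_lt continuous_const (S.rho_cont X 1))
  have h1V' : (1 : G) ∈ V' := by
    rw [hV']
    refine ⟨h1V, ?_⟩
    change r < S.rho X 1 1
    rw [S.rho_one]
    exact hr1
  have hV'pos : 0 < μ V' := hV'o.measure_pos μ ⟨1, h1V'⟩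
  have hV'fin : μ V' < ∞ := (measure_mono (by rw [hV']; exact Set.inter_subset_left)).trans_lt hVfin
  obtain ⟨mV, hmV⟩ : ∃ mV : ℝ, mV = μ.real V' := ⟨_, rfl⟩
  have hmVp : 0 < mV := by rw [hmV]; exact ENNReal.toReal_pos hV'pos.ne' hV'fin.ne
  obtain ⟨k, hk⟩ := exists_pow_lt_of_lt_one (show 0 < δ * mV / (2 * c1 ^ 2) by positivity) hqr
  obtain ⟨ρ, hρ⟩ : ∃ ρ : G → ℝ, ρ = S.rho X k := ⟨_, rfl⟩
  have hρc : Continuous ρ := by rw [hρ]; exact S.rho_cont X k
  have hρ0 : ∀ g, 0 ≤ ρ g := fun g => by rw [hρ]; exact S.rho_nonneg X k g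
  have hρ1 : ∀ g, |ρ g| ≤ 1 := fun g => by
    rw [abs_of_nonneg (hρ0 g), hρ]; exact S.rho_le_one X k g
  obtain ⟨qk, hqk⟩ : ∃ qk : ℝ, qk = q ^ (2 * k) := ⟨_, rfl⟩
  have hqk0 : 0 ≤ qk := by rw [hqk]; positivity
  have hkerV : ∀ g ∈ W, ∀ y : A, ‖T.ι ((X.tw (S.α g) ^ (2 * k)) y
      - (T.τ y * (ρ g : ℂ)) • (1 : A))‖ ≤ 6 * (δ * ρ g + qk) * ‖T.ι y‖ := by
    intro g hg y
    have := (hX k).1 g (hWVL g hg) y
    rw [← hρ, ← hqk] at this
    exact this
  have hρL : ∀ g ∈ W, g ∉ V → ρ g ≤ qk := by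
    intro g hg hgV
    have := (hX k).2 g (by rw [hL]; exact ⟨hg, hgV⟩)
    rw [← hρ, ← hqk] at this
    exact this
  -- the mass near the unit
  obtain ⟨mk, hmk⟩ : ∃ mk : ℝ, mk = ∫ g in V, ρ g ∂μ := ⟨_, rfl⟩
  have hρiV : IntegrableOn ρ V μ := by
    refine Measure.integrableOn_of_bounded hVfin.ne hρc.aestronglyMeasurable (M := 1) ?_
    exact Filter.Eventually.of_forall fun g => by rw [Real.norm_eq_abs]; exact hρ1 g
  have hmk1 : mV * r ^ k ≤ mk := by
    have h1 : ∫ g in V', ρ g ∂μ ≤ ∫ g in V, ρ g ∂μ := by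
      refine setIntegral_mono_set hρiV (Filter.Eventually.of_forall hρ0) ?_
      rw [hV']
      exact Filter.Eventually.of_forall Set.inter_subset_left
    have h2 : mV * r ^ k ≤ ∫ g in V', ρ g ∂μ := by
      have h3 : ∫ g in V', r ^ k ∂μ = mV * r ^ k := by
        rw [setIntegral_const, smul_eq_mul, hmV]
      rw [← h3]
      refine setIntegral_mono_on (integrableOn_const hV'fin.ne) (hρiV.mono_set ?_)
        hV'o.measurableSet fun g hg => ?_
      · rw [hV']; exact Set.inter_subset_left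
      · rw [hV'] at hg
        rw [hρ]
        exact (pow_le_pow_left₀ hr0.le hg.2.le k).trans (S.rho_lower X k g)
    rw [hmk]
    exact h2.trans h1
  have hmkp : 0 < mk := lt_of_lt_of_le (by positivity) hmk1
  have hqkm : qk * c1 ^ 2 ≤ δ * (mk / 2) := by
    have h1 : (q ^ 2 / r) ^ k * r ^ k = qk := by
      rw [← mul_pow, div_mul_cancel₀ _ hr0.ne', ← pow_mul, ← hqk]
    have h2 : qk ≤ δ * mV / (2 * c1 ^ 2) * r ^ k := by
      rw [← h1]
      exact mul_le_mul_of_nonneg_right hk.le (by positivity)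
    have h3 : qk * c1 ^ 2 ≤ δ * mV / (2 * c1 ^ 2) * r ^ k * c1 ^ 2 :=
      mul_le_mul_of_nonneg_right h2 (by positivity)
    have h4 : δ * mV / (2 * c1 ^ 2) * r ^ k * c1 ^ 2 = δ * (mV * r ^ k) / 2 := by
      field_simp
    rw [h4] at h3
    have h5 : δ * (mV * r ^ k) ≤ δ * mk := mul_le_mul_of_nonneg_left hmk1 hδp.le
    linarith
  -- the family
  obtain ⟨J, hJ, x, hx⟩ := X.exists_words (2 * k)
  choose a ha using fun j => TrAct.exists_orb (S := S) μ hφi hφ0 hφ1 (x j)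
  have hφsi : ∀ s : G, Integrable (fun t => φ (s⁻¹ * t)) μ := fun s => hφi.comp_mul_left s⁻¹
  -- the numbers `A(s)`
  obtain ⟨B, hB⟩ : ∃ B : G → ℝ, B = fun s => ∫ p : G × G,
    φ p.1 * φ (s⁻¹ * p.2) * ρ (p.1⁻¹ * p.2) ∂(μ.prod μ) := ⟨_, rfl⟩
  have hBeq : ∀ s, ∑ j, inner ℂ (T.ι (a j)) (T.ι (S.α s (a j))) = (B s : ℂ) := by
    intro s
    have h1 := (S.fam_pair μ X (2 * k) x hx hφi (hφsi s) a (fun j => S.α s (a j)) ha
      (fun j => (ha j).translate μ hφi s) 1 1).2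
    have h2 : ∀ j, T.τ (star (a j) * (1 * S.α s (a j) * 1))
        = inner ℂ (T.ι (a j)) (T.ι (S.α s (a j))) := fun j => by
      rw [one_mul, mul_one, T.inner_eq_τ]
    simp only [h2] at h1
    rw [h1, hB]
    simp only
    rw [← integral_complex_ofReal]
    refine integral_congr_ae (Filter.Eventually.of_forall fun p => ?_)
    simp only [map_one, mul_one]
    rw [S.τ_pow, ← hρ]
    push_cast
    ring
  have hB1 : B 1 = ∑ j, ‖T.ι (a j)‖ ^ 2 := by
    have h1 := hBeq 1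
    simp only [S.one, inner_self_eq_norm_sq_to_K] at h1
    have h2 : ((∑ j, ‖T.ι (a j)‖ ^ 2 : ℝ) : ℂ) = (B 1 : ℂ) := by
      rw [← h1]
      push_cast
      rfl
    exact_mod_cast h2.symm
  have hshear : ∀ s, Integrable (fun p : G × G => φ p.1 * φ (s⁻¹ * p.2) * ρ (p.1⁻¹ * p.2))
        (μ.prod μ) ∧ Integrable (fun g => ρ g * ∫ t, φ t * φ (s⁻¹ * (t * g)) ∂μ) μ ∧
      B s = ∫ g, ρ g * (∫ t, φ t * φ (s⁻¹ * (t * g)) ∂μ) ∂μ := by
    intro s
    rw [hB]
    exact shear_integral μ hφi (hφsi s) hρc 1 hρ1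
  have hc1sq : ∀ s : G, ∫ p : G × G, φ p.1 * φ (s⁻¹ * p.2) ∂(μ.prod μ) = c1 ^ 2 := by
    intro s
    rw [integral_prod_mul (fun t => φ t) (fun t => φ (s⁻¹ * t)), integral_mul_left_eq_self, ← hc1,
      sq]
  have hprodi : ∀ s : G, Integrable (fun p : G × G => φ p.1 * φ (s⁻¹ * p.2)) (μ.prod μ) :=
    fun s => hφi.mul_prod (hφsi s)
  obtain ⟨N, hN⟩ : ∃ N : ℝ, N = B 1 := ⟨_, rfl⟩
  have hcorr0 : ∀ s g : G, 0 ≤ ∫ t, φ t * φ (s⁻¹ * (t * g)) ∂μ := fun s g =>
    integral_nonneg fun t => mul_nonneg (hφ0 _) (hφ0 _)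
  -- lower bound
  have hNlow : mk / 2 ≤ N := by
    have h1 : B 1 = ∫ g, ρ g * (∫ t, φ t * φ (t * g) ∂μ) ∂μ := by
      have := (hshear 1).2.2
      simpa only [inv_one, one_mul] using this
    have h2 : Integrable (fun g => ρ g * ∫ t, φ t * φ (t * g) ∂μ) μ := by
      have := (hshear 1).2.1
      simpa only [inv_one, one_mul] using this
    have h3 : mk / 2 = ∫ g, V.indicator (fun g => ρ g / 2) g ∂μ := by
      rw [integral_indicator hVm, integral_div, ← hmk]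
    rw [hN, h1, h3]
    refine integral_mono ((integrable_indicator_iff hVm).2 (hρiV.div_const 2)) h2 fun g => ?_
    simp only
    by_cases hgV : g ∈ V
    · rw [Set.indicator_of_mem hgV]
      have := hVc1 g hgV
      have := hρ0 g
      nlinarith
    · rw [Set.indicator_of_notMem hgV]
      have h4 := hcorr0 1 g
      simp only [inv_one, one_mul] at h4
      exact mul_nonneg (hρ0 g) h4
  have hNp : 0 < N := lt_of_lt_of_le (by positivity) hNlow
  have hqN : qk * c1 ^ 2 ≤ δ * N := hqkm.trans (mul_le_mul_of_nonneg_left hNlow hδp.le)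
  -- near-invariance
  have hnear : ∀ s ∈ D, N - B s ≤ 5 * δ * N := by
    intro s hs
    have h1 : N = ∫ g, ρ g * (∫ t, φ t * φ (t * g) ∂μ) ∂μ := by
      have := (hshear 1).2.2
      rw [hN]
      simpa only [inv_one, one_mul] using this
    have h2 : Integrable (fun g => ρ g * ∫ t, φ t * φ (t * g) ∂μ) μ := by
      have := (hshear 1).2.1
      simpa only [inv_one, one_mul] using this
    -- the integral of the correlation function
    have h3 : Integrable (fun g => ∫ t, φ t * φ (t * g) ∂μ) μ ∧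
        ∫ g, (∫ t, φ t * φ (t * g) ∂μ) ∂μ = c1 ^ 2 := by
      have h4 := shear_integral μ hφi hφi (continuous_const (y := (1 : ℝ))) 1
        (fun g => by rw [abs_one])
      simp only [one_mul, mul_one] at h4
      refine ⟨h4.2.1, ?_⟩
      rw [← h4.2.2]
      have := hc1sq 1
      simpa only [inv_one, one_mul] using this
    have h4 : N - B s = ∫ g, ρ g * ((∫ t, φ t * φ (t * g) ∂μ)
        - ∫ t, φ t * φ (s⁻¹ * (t * g)) ∂μ) ∂μ := by
      rw [h1, (hshear s).2.2, ← integral_sub h2 (hshear s).2.1]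
      refine integral_congr_ae (Filter.Eventually.of_forall fun g => ?_)
      simp only
      ring
    have h5 : ∫ g, ρ g * ((∫ t, φ t * φ (t * g) ∂μ)
        - ∫ t, φ t * φ (s⁻¹ * (t * g)) ∂μ) ∂μ
        ≤ ∫ g, (V.indicator (fun g => 2 * δ * ρ g) g + qk * ∫ t, φ t * φ (t * g) ∂μ) ∂μ := by
      refine integral_mono ?_ (((integrable_indicator_iff hVm).2 (hρiV.const_mul (2 * δ))).add
        (h3.1.const_mul qk)) fun g => ?_
      · refine (h2.sub (hshear s).2.1).congr (Filter.Eventually.of_forall fun g => ?_)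
        simp only [Pi.sub_apply]
        ring
      · have hc0 : 0 ≤ ∫ t, φ t * φ (t * g) ∂μ := by
          have := hcorr0 1 g
          simpa only [inv_one, one_mul] using this
        have hcs := hcorr0 s g
        have hρg := hρ0 g
        simp only
        by_cases hgV : g ∈ V
        · rw [Set.indicator_of_mem hgV]
          have h6 := hVc2 g hgV s hs
          have h7 : 0 ≤ qk * ∫ t, φ t * φ (t * g) ∂μ := mul_nonneg hqk0 hc0
          nlinarith
        · rw [Set.indicator_of_notMem hgV, zero_add]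
          by_cases hgW : g ∈ W
          · have h6 := hρL g hgW hgV
            calc ρ g * ((∫ t, φ t * φ (t * g) ∂μ) - ∫ t, φ t * φ (s⁻¹ * (t * g)) ∂μ)
                ≤ ρ g * (∫ t, φ t * φ (t * g) ∂μ) :=
                  mul_le_mul_of_nonneg_left (by linarith) hρg
              _ ≤ qk * ∫ t, φ t * φ (t * g) ∂μ := mul_le_mul_of_nonneg_right h6 hc0
          · have h6 : ∫ t, φ t * φ (t * g) ∂μ = 0 := by
              rw [integral_eq_zero_of_ae]
              refine Filter.Eventually.of_forall fun t => ?_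
              by_contra hne
              refine hgW ?_
              have h7 := hWmem 1 h1Q (t, t * g) (by
                simpa only [inv_one, one_mul, Pi.zero_apply] using hne)
              simpa only [inv_mul_cancel_left] using h7
            rw [h6, mul_zero, zero_sub]
            have : 0 ≤ ρ g * ∫ t, φ t * φ (s⁻¹ * (t * g)) ∂μ := mul_nonneg hρg hcs
            linarith
    have h6 : ∫ g, (V.indicator (fun g => 2 * δ * ρ g) g + qk * ∫ t, φ t * φ (t * g) ∂μ) ∂μ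
        = 2 * δ * mk + qk * c1 ^ 2 := by
      rw [integral_add ((integrable_indicator_iff hVm).2 (hρiV.const_mul (2 * δ))) (h3.1.const_mul qk),
        integral_indicator hVm, integral_const_mul, integral_const_mul, h3.2, ← hmk]
    rw [h4]
    refine h5.trans ?_
    rw [h6]
    have h7 : δ * mk ≤ δ * (2 * N) := mul_le_mul_of_nonneg_left (by linarith) hδp.le
    linarith
  refine ⟨J, hJ, a, N, hNp, ?_, ?_, ?_⟩
  · -- the conditional expectations
    have hBfar : ∀ g ∈ F, ∀ h ∈ F, g ≠ h → B (g⁻¹ * h) ≤ qk * c1 ^ 2 := by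
      intro g hgF h hhF hne
      have h1 := hFfar g hgF h hhF hne
      have hQs : g⁻¹ * h ∈ Q := by
        rw [hQ]
        exact Finset.mem_insert_of_mem (Finset.mem_image.2 ⟨(g, h),
          Finset.mem_product.2 ⟨hgF, hhF⟩, rfl⟩)
      rw [← hc1sq (g⁻¹ * h), ← integral_const_mul]
      rw [hB]
      refine integral_mono (hshear (g⁻¹ * h)).1 ((hprodi (g⁻¹ * h)).const_mul qk) fun p => ?_
      simp only
      by_cases hp : φ p.1 * φ ((g⁻¹ * h)⁻¹ * p.2) = 0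
      · rw [hp, zero_mul, mul_zero]
      · have h2 := hWmem _ hQs p hp
        have h3 : p.1⁻¹ * p.2 ∉ V := by
          intro hpV
          refine h1 ?_
          have h4 := hsupp p.1 (left_ne_zero_of_mul hp)
          have h5 := hsupp _ (right_ne_zero_of_mul hp)
          have h6 : g⁻¹ * h = p.1 * (p.1⁻¹ * p.2) * ((g⁻¹ * h)⁻¹ * p.2)⁻¹ := by group
          rw [h6]
          exact Set.mul_mem_mul (Set.mul_mem_mul h4 (hV0' _ hpV)) (Set.inv_mem_inv.2 h5)
        have h4 := hρL _ h2 h3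
        have h5 : 0 ≤ φ p.1 * φ ((g⁻¹ * h)⁻¹ * p.2) := mul_nonneg (hφ0 _) (hφ0 _)
        calc φ p.1 * φ ((g⁻¹ * h)⁻¹ * p.2) * ρ (p.1⁻¹ * p.2)
            ≤ φ p.1 * φ ((g⁻¹ * h)⁻¹ * p.2) * qk := mul_le_mul_of_nonneg_left h4 h5
          _ = qk * (φ p.1 * φ ((g⁻¹ * h)⁻¹ * p.2)) := mul_comm _ _
    have hE : ∀ j, ‖T.ι (S.E (a j))‖ ^ 2 ≤ (1 / (m : ℝ)) ^ 2
        * ∑ g ∈ F, ∑ h ∈ F, (inner ℂ (T.ι (a j)) (T.ι (S.α (g⁻¹ * h) (a j)))).re := by
      intro j
      obtain ⟨b, hb⟩ : ∃ b : A, b = ((1 / (m : ℝ) : ℝ) : ℂ) • ∑ g ∈ F, S.α g (a j) := ⟨_, rfl⟩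
      have h1 : S.E b = S.E (a j) := by
        rw [hb, S.E_smul, S.E_sum]
        simp only [S.E_α]
        rw [Finset.sum_const, hFcard, ← Nat.cast_smul_eq_nsmul ℂ, smul_smul]
        have : ((1 / (m : ℝ) : ℝ) : ℂ) * (m : ℂ) = 1 := by
          push_cast
          have : (m : ℂ) ≠ 0 := by exact_mod_cast hm0.ne'
          field_simp
        rw [this, one_smul]
      rw [← h1]
      refine (pow_le_pow_left₀ (norm_nonneg _) (S.norm_E_le b) 2).trans (le_of_eq ?_)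
      rw [hb, map_smul, norm_smul, mul_pow, Complex.norm_real, Real.norm_of_nonneg (by positivity),
        map_sum]
      congr 1
      have h2 : ‖∑ g ∈ F, T.ι (S.α g (a j))‖ ^ 2
          = (inner ℂ (∑ g ∈ F, T.ι (S.α g (a j))) (∑ g ∈ F, T.ι (S.α g (a j)))).re := by
        rw [inner_self_eq_norm_sq_to_K]
        norm_cast
      rw [h2, sum_inner, Complex.re_sum]
      refine Finset.sum_congr rfl fun g _ => ?_
      rw [inner_sum, Complex.re_sum]
      refine Finset.sum_congr rfl fun h _ => ?_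
      congr 1
      rw [← S.inner_map g⁻¹, S.inv_apply, ← S.mul]
    have hsum : ∑ j, ‖T.ι (S.E (a j))‖ ^ 2 ≤ (1 / (m : ℝ)) ^ 2
        * ∑ g ∈ F, ∑ h ∈ F, B (g⁻¹ * h) := by
      refine (Finset.sum_le_sum fun j _ => hE j).trans (le_of_eq ?_)
      rw [← Finset.mul_sum]
      congr 1
      rw [Finset.sum_comm]
      refine Finset.sum_congr rfl fun g _ => ?_
      rw [Finset.sum_comm]
      refine Finset.sum_congr rfl fun h _ => ?_
      rw [← Complex.re_sum, hBeq, Complex.ofReal_re]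
    refine hsum.trans ?_
    have h1 : ∀ g ∈ F, ∑ h ∈ F, B (g⁻¹ * h) ≤ N + m * (qk * c1 ^ 2) := by
      intro g hgF
      rw [← Finset.add_sum_erase F (fun h => B (g⁻¹ * h)) hgF]
      simp only [inv_mul_cancel]
      rw [← hN]
      refine add_le_add le_rfl ?_
      calc ∑ h ∈ F.erase g, B (g⁻¹ * h) ≤ ∑ h ∈ F.erase g, qk * c1 ^ 2 :=
            Finset.sum_le_sum fun h hh => hBfar g hgF h (Finset.mem_of_mem_erase hh)
              (Finset.ne_of_mem_erase hh).symm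
        _ ≤ ∑ h ∈ F, qk * c1 ^ 2 :=
            Finset.sum_le_sum_of_subset_of_nonneg (Finset.erase_subset _ _)
              fun _ _ _ => by positivity
        _ = m * (qk * c1 ^ 2) := by rw [Finset.sum_const, hFcard, nsmul_eq_mul]
    have h2 : ∑ g ∈ F, ∑ h ∈ F, B (g⁻¹ * h) ≤ m * (N + m * (qk * c1 ^ 2)) := by
      refine (Finset.sum_le_sum h1).trans (le_of_eq ?_)
      rw [Finset.sum_const, hFcard, nsmul_eq_mul]
    have h3 := mul_le_mul_of_nonneg_left h2 (by positivity : 0 ≤ (1 / (m : ℝ)) ^ 2)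
    refine h3.trans ?_
    have h4 : (1 / (m : ℝ)) ^ 2 * (m * (N + m * (qk * c1 ^ 2)))
        = 1 / (m : ℝ) * N + qk * c1 ^ 2 := by
      field_simp
    rw [h4]
    have h5 : 1 / (m : ℝ) * N ≤ κ / 2 * N := mul_le_mul_of_nonneg_right hmκ hNp.le
    have h6 : δ * N ≤ κ / 2 * N := mul_le_mul_of_nonneg_right (by rw [hδ]; linarith) hNp.le
    linarith
  · -- near-invariance
    intro s hs
    have h1 : ∀ j, ‖T.ι (S.α s (a j) - a j)‖ ^ 2
        = 2 * ‖T.ι (a j)‖ ^ 2 - 2 * (inner ℂ (T.ι (a j)) (T.ι (S.α s (a j)))).re := by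
      intro j
      rw [map_sub, @norm_sub_sq ℂ, S.norm_map]
      simp only [RCLike.re_to_complex]
      rw [← inner_conj_symm, Complex.conj_re]
      ring
    simp only [h1]
    rw [Finset.sum_sub_distrib, ← Finset.mul_sum, ← Finset.mul_sum, ← hB1, ← Complex.re_sum, hBeq,
      Complex.ofReal_re, ← hN]
    have h2 := hnear s hs
    have h3 : 10 * δ * N ≤ κ * N := mul_le_mul_of_nonneg_right (by rw [hδ]; linarith) hNp.le
    linarith
  · -- the covariances
    intro y z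
    obtain ⟨hi, hsum⟩ := S.fam_pair μ X (2 * k) x hx hφi hφi a a ha ha y z
    have h1i := (hshear 1).1
    simp only [inv_one, one_mul] at h1i
    have hN' : N = ∫ p : G × G, φ p.1 * φ p.2 * ρ (p.1⁻¹ * p.2) ∂(μ.prod μ) := by
      rw [hN, hB]
      simp only [inv_one, one_mul]
    have hint2 : Integrable (fun p : G × G => T.τ y * T.τ z
        * ((φ p.1 * φ p.2 * ρ (p.1⁻¹ * p.2) : ℝ) : ℂ)) (μ.prod μ) := h1i.ofReal.const_mul _
    have hdiff : (∑ j, T.τ (star (a j) * (y * a j * z))) - T.τ y * T.τ z * (N : ℂ)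
        = ∫ p : G × G, (((φ p.1 * φ p.2 : ℝ) : ℂ)
            * T.τ ((X.tw (S.α (p.1⁻¹ * p.2)) ^ (2 * k)) (S.α p.1⁻¹ y) * S.α p.1⁻¹ z)
          - T.τ y * T.τ z * ((φ p.1 * φ p.2 * ρ (p.1⁻¹ * p.2) : ℝ) : ℂ)) ∂(μ.prod μ) := by
      rw [integral_sub hi hint2, ← hsum, integral_const_mul, integral_complex_ofReal, ← hN']
    rw [hdiff]
    have hprod1 := hprodi 1
    simp only [inv_one, one_mul] at hprod1
    have hbi : Integrable (fun p : G × G => (6 * (‖T.ι y‖ * ‖T.ι z‖))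
        * (δ * (φ p.1 * φ p.2 * ρ (p.1⁻¹ * p.2)) + qk * (φ p.1 * φ p.2))) (μ.prod μ) :=
      ((h1i.const_mul δ).add (hprod1.const_mul qk)).const_mul _
    refine (norm_integral_le_of_norm_le hbi (Filter.Eventually.of_forall fun p => ?_)).trans ?_
    · have hφp : 0 ≤ φ p.1 * φ p.2 := mul_nonneg (hφ0 _) (hφ0 _)
      have hfac : ((φ p.1 * φ p.2 : ℝ) : ℂ)
            * T.τ ((X.tw (S.α (p.1⁻¹ * p.2)) ^ (2 * k)) (S.α p.1⁻¹ y) * S.α p.1⁻¹ z)
          - T.τ y * T.τ z * ((φ p.1 * φ p.2 * ρ (p.1⁻¹ * p.2) : ℝ) : ℂ)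
          = ((φ p.1 * φ p.2 : ℝ) : ℂ) * T.τ (((X.tw (S.α (p.1⁻¹ * p.2)) ^ (2 * k)) (S.α p.1⁻¹ y)
            - (T.τ (S.α p.1⁻¹ y) * (ρ (p.1⁻¹ * p.2) : ℂ)) • (1 : A)) * S.α p.1⁻¹ z) := by
        rw [sub_mul, smul_mul_assoc, one_mul, T.τ_sub, T.τ_smul, S.τ_map, S.τ_map]
        push_cast
        ring
      change ‖((φ p.1 * φ p.2 : ℝ) : ℂ)
            * T.τ ((X.tw (S.α (p.1⁻¹ * p.2)) ^ (2 * k)) (S.α p.1⁻¹ y) * S.α p.1⁻¹ z)
          - T.τ y * T.τ z * ((φ p.1 * φ p.2 * ρ (p.1⁻¹ * p.2) : ℝ) : ℂ)‖ ≤ _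
      rw [hfac, norm_mul, Complex.norm_real, Real.norm_of_nonneg hφp]
      by_cases hp : φ p.1 * φ p.2 = 0
      · rw [hp]
        simp
      · have hpW : p.1⁻¹ * p.2 ∈ W := hWmem 1 h1Q p (by simpa only [inv_one, one_mul] using hp)
        have h2 := hkerV _ hpW (S.α p.1⁻¹ y)
        rw [S.norm_map] at h2
        have h3 : ‖T.τ (((X.tw (S.α (p.1⁻¹ * p.2)) ^ (2 * k)) (S.α p.1⁻¹ y)
            - (T.τ (S.α p.1⁻¹ y) * (ρ (p.1⁻¹ * p.2) : ℂ)) • (1 : A)) * S.α p.1⁻¹ z)‖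
            ≤ (6 * (δ * ρ (p.1⁻¹ * p.2) + qk) * ‖T.ι y‖) * ‖T.ι z‖ := by
          have h4 : ∀ c d : A, ‖T.τ (c * d)‖ ≤ ‖T.ι c‖ * ‖T.ι d‖ := by
            intro c d
            have h5 : T.τ (c * d) = inner ℂ (T.ι (star c)) (T.ι d) := by
              rw [T.inner_eq_τ, star_star]
            rw [h5]
            refine (norm_inner_le_norm _ _).trans ?_
            rw [T.norm_star]
          refine (h4 _ _).trans ?_
          rw [S.norm_map]
          exact mul_le_mul_of_nonneg_right h2 (norm_nonneg _)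
        refine (mul_le_mul_of_nonneg_left h3 hφp).trans (le_of_eq ?_)
        ring
    · rw [integral_const_mul, integral_add (h1i.const_mul δ) (hprod1.const_mul qk),
        integral_const_mul, integral_const_mul, ← hN']
      have h2 := hc1sq 1
      simp only [inv_one, one_mul] at h2
      rw [h2]
      have h3 : 0 ≤ ‖T.ι y‖ * ‖T.ι z‖ := by positivity
      have h4 : 6 * (δ * N + qk * c1 ^ 2) ≤ κ * N := by
        have h5 : 12 * δ * N ≤ κ * N := mul_le_mul_of_nonneg_right (by rw [hδ]; linarith) hNp.le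
        linarith
      calc 6 * (‖T.ι y‖ * ‖T.ι z‖) * (δ * N + qk * c1 ^ 2)
          = 6 * (δ * N + qk * c1 ^ 2) * (‖T.ι y‖ * ‖T.ι z‖) := by ring
        _ ≤ κ * N * (‖T.ι y‖ * ‖T.ι z‖) := mul_le_mul_of_nonneg_right h4 h3

end

end Pool.Agent.AbCoc
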