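import Pool.Agent.Lib_MP_418a80_gap.Gap7
import Pool.Agent.Lib_MP_418a80_ab.FamKey
import Pool.Agent.Lib_MP_418a80_ab.KeyOf

/-!
# Spectral gap, part 8: the families in the corners, and KEY
-/

set_option autoImplicit false
set_option linter.unusedVariables false
set_option linter.unusedSectionVars false

open Topology Filter MeasureTheory
open scoped ENNReal Pointwise

namespace Pool.Agent.AbCoc

universe u v w

section
variable {A : Type u} [CStarAlgebra A] {K : Type v} [NormedAddCommGroup K]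
  [InnerProductSpace ℂ K] [CompleteSpace K]
variable {G : Type w} [Group G] [TopologicalSpace G] [IsTopologicalGroup G]
  [SecondCountableTopology G] [LocallyCompactSpace G] [T2Space G] [NoncompactSpace G]
  [MeasurableSpace G] [BorelSpace G] (μ : Measure G) [μ.IsHaarMeasure] {T : TrAlg A K}
  {S : TrAct G T}

/-- spectral gap, outer automorphisms and Reiter's condition give the families of `StepATyp` -/
theorem TrAct.stepATyp_of_gap (hout : S.Outer) {F0 : Finset A} {C0 : ℝ} (hg : T.Gap F0 C0)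
    (hR : Reiter μ) : S.StepATyp := by
  classical
  intro b1 b2 hf1 hf2 hs1 hs2 hb1 hb2 D hD κ hκ Y _ y
  -- the trace of the squares
  have hpos : ∀ b : A, IsSelfAdjoint b → b ≠ 0 → ∃ β : ℝ, 0 < β ∧ T.τ (b * b) = (β : ℂ) := by
    intro b hs hb
    refine ⟨‖T.ι b‖ ^ 2, ?_, ?_⟩
    · have : T.ι b ≠ 0 := fun h => hb (T.inj (by rw [h, map_zero]))
      have := norm_pos_iff.2 this
      positivity
    · have h1 := T.inner_eq_τ b b
      rw [hs.star_eq] at h1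
      rw [← h1, inner_self_eq_norm_sq_to_K]
      push_cast
      rfl
  obtain ⟨β1, hβ1, hτ1⟩ := hpos b1 hs1 hb1
  obtain ⟨β2, hβ2, hτ2⟩ := hpos b2 hs2 hb2
  obtain ⟨β, hβ⟩ : ∃ β : ℝ, β = β1 * β2 := ⟨_, rfl⟩
  have hβp : 0 < β := by rw [hβ]; positivity
  -- the constants
  obtain ⟨w, hw⟩ : ∃ w : Y → A, w = fun j => y j - S.E (y j) := ⟨_, rfl⟩
  obtain ⟨M, hM⟩ : ∃ M : ℝ, M = ‖T.ι (b1 * b1)‖ * ‖T.ι (b2 * b2)‖ + ‖b1‖ ^ 2 * ‖b2‖ ^ 2
      + ∑ j, (‖T.ι (b1 * b1)‖ * ‖T.ι (b2 * w j * b2)‖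
        + ‖T.ι (b1 * w j * b1)‖ * ‖T.ι (b2 * b2)‖) + 1 := ⟨_, rfl⟩
  have hM1 : 0 < M := by rw [hM]; positivity
  have hMa : ‖T.ι (b1 * b1)‖ * ‖T.ι (b2 * b2)‖ ≤ M := by
    have h1 : 0 ≤ ‖b1‖ ^ 2 * ‖b2‖ ^ 2 := by positivity
    have h2 : 0 ≤ ∑ j, (‖T.ι (b1 * b1)‖ * ‖T.ι (b2 * w j * b2)‖
        + ‖T.ι (b1 * w j * b1)‖ * ‖T.ι (b2 * b2)‖) := by positivity
    rw [hM]; linarith
  have hMb : ‖b1‖ ^ 2 * ‖b2‖ ^ 2 ≤ M := by
    have h1 : 0 ≤ ‖T.ι (b1 * b1)‖ * ‖T.ι (b2 * b2)‖ := by positivity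
    have h2 : 0 ≤ ∑ j, (‖T.ι (b1 * b1)‖ * ‖T.ι (b2 * w j * b2)‖
        + ‖T.ι (b1 * w j * b1)‖ * ‖T.ι (b2 * b2)‖) := by positivity
    rw [hM]; linarith
  have hMc : ∀ j, ‖T.ι (b1 * b1)‖ * ‖T.ι (b2 * w j * b2)‖
        + ‖T.ι (b1 * w j * b1)‖ * ‖T.ι (b2 * b2)‖ ≤ M := by
    intro j
    have h1 := Finset.single_le_sum (f := fun j => ‖T.ι (b1 * b1)‖ * ‖T.ι (b2 * w j * b2)‖
        + ‖T.ι (b1 * w j * b1)‖ * ‖T.ι (b2 * b2)‖) (fun i _ => by positivity) (Finset.mem_univ j)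
    have h2 : 0 ≤ ‖T.ι (b1 * b1)‖ * ‖T.ι (b2 * b2)‖ := by positivity
    have h3 : 0 ≤ ‖b1‖ ^ 2 * ‖b2‖ ^ 2 := by positivity
    rw [hM]
    linarith
  obtain ⟨ε, hε⟩ : ∃ ε : ℝ, ε = min 1 (min (β / (2 * M)) (κ * β / (2 * M))) := ⟨_, rfl⟩
  have hεp : 0 < ε := by rw [hε]; positivity
  have hε1 : ε ≤ 1 := by rw [hε]; exact min_le_left _ _
  have hεβ : ε * M ≤ β / 2 := by
    have h1 : ε ≤ β / (2 * M) := by rw [hε]; exact (min_le_right _ _).trans (min_le_left _ _)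
    calc ε * M ≤ β / (2 * M) * M := mul_le_mul_of_nonneg_right h1 hM1.le
      _ = β / 2 := by field_simp
  have hεκ : ε * M ≤ κ * β / 2 := by
    have h1 : ε ≤ κ * β / (2 * M) := by rw [hε]; exact (min_le_right _ _).trans (min_le_right _ _)
    calc ε * M ≤ κ * β / (2 * M) * M := mul_le_mul_of_nonneg_right h1 hM1.le
      _ = κ * β / 2 := by field_simp
  obtain ⟨J, hJ, a, N, hN, hE, hnear, hcov⟩ := TrAct.gap_family μ hout hg hR D hD ε hεp hε1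
  -- normalisation
  obtain ⟨r, hr⟩ : ∃ r : ℝ, r = Real.sqrt (2 / (β * N)) := ⟨_, rfl⟩
  have hr0 : 0 ≤ r := by rw [hr]; exact Real.sqrt_nonneg _
  have hr2 : r ^ 2 = 2 / (β * N) := by rw [hr]; exact Real.sq_sqrt (by positivity)
  have hr2N : r ^ 2 * N = 2 / β := by rw [hr2]; field_simp
  obtain ⟨x, hx⟩ : ∃ x : J → A, x = fun j => (r : ℂ) • a j := ⟨_, rfl⟩
  have hsm : ∀ z : A, ‖T.ι ((r : ℂ) • z)‖ ^ 2 = r ^ 2 * ‖T.ι z‖ ^ 2 := fun z => by
    rw [map_smul, norm_smul, Complex.norm_real, Real.norm_of_nonneg hr0, mul_pow]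
  have hbxb : ∀ z : A, ‖T.ι (b1 * z * b2)‖ ^ 2 ≤ ‖b1‖ ^ 2 * ‖b2‖ ^ 2 * ‖T.ι z‖ ^ 2 := by
    intro z
    have h1 : ‖T.ι (b1 * z * b2)‖ ≤ ‖b1‖ * ‖T.ι z‖ * ‖b2‖ :=
      (T.mul_le' _ _).trans (mul_le_mul_of_nonneg_right (T.mul_le _ _) (norm_nonneg _))
    refine (pow_le_pow_left₀ (norm_nonneg _) h1 2).trans (le_of_eq ?_)
    ring
  have hxr : ∀ j, b1 * x j * b2 = (r : ℂ) • (b1 * a j * b2) := fun j => by
    rw [hx]
    simp only [mul_smul_comm, smul_mul_assoc]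
  have hfin : ∀ e : J → A, ∑ j, ‖T.ι (e j)‖ ^ 2 ≤ ε * N →
      ∑ j, ‖T.ι ((r : ℂ) • (b1 * e j * b2))‖ ^ 2 ≤ κ := by
    intro e he
    simp only [hsm]
    rw [← Finset.mul_sum]
    have h1 : ∑ j, ‖T.ι (b1 * e j * b2)‖ ^ 2 ≤ M * (ε * N) := by
      calc ∑ j, ‖T.ι (b1 * e j * b2)‖ ^ 2
          ≤ ∑ j, ‖b1‖ ^ 2 * ‖b2‖ ^ 2 * ‖T.ι (e j)‖ ^ 2 := Finset.sum_le_sum fun j _ => hbxb _
        _ = ‖b1‖ ^ 2 * ‖b2‖ ^ 2 * ∑ j, ‖T.ι (e j)‖ ^ 2 := by rw [Finset.mul_sum]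
        _ ≤ M * (ε * N) := mul_le_mul hMb he (Finset.sum_nonneg fun j _ => by positivity) hM1.le
    calc r ^ 2 * ∑ j, ‖T.ι (b1 * e j * b2)‖ ^ 2 ≤ r ^ 2 * (M * (ε * N)) :=
          mul_le_mul_of_nonneg_left h1 (sq_nonneg r)
      _ = (r ^ 2 * N) * (ε * M) := by ring
      _ ≤ (2 / β) * (κ * β / 2) := by
          rw [hr2N]
          exact mul_le_mul_of_nonneg_left hεκ (by positivity)
      _ = κ := by field_simp
  refine ⟨J, hJ, fun j => b1 * x j * b2, x, fun j => rfl, ?_, ?_, ?_, ?_⟩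
  · -- lower bound
    simp only [hxr, hsm]
    rw [← Finset.mul_sum]
    have h1 : ∀ j, (‖T.ι (b1 * a j * b2)‖ ^ 2 : ℂ)
        = T.τ (star (a j) * ((b1 * b1) * a j * (b2 * b2))) := by
      intro j
      have h2 : ((‖T.ι (b1 * a j * b2)‖ ^ 2 : ℝ) : ℂ)
          = inner ℂ (T.ι (b1 * a j * b2)) (T.ι (b1 * a j * b2)) := by
        rw [inner_self_eq_norm_sq_to_K]
        push_cast
        rfl
      have h3 : (‖T.ι (b1 * a j * b2)‖ ^ 2 : ℂ) = ((‖T.ι (b1 * a j * b2)‖ ^ 2 : ℝ) : ℂ) := by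
        push_cast
        rfl
      rw [h3, h2, T.right, T.left, T.inner_eq_τ, hs1.star_eq, hs2.star_eq]
      congr 1
      noncomm_ring
    have h2 := hcov (b1 * b1) (b2 * b2)
    rw [← Finset.sum_congr rfl fun j _ => h1 j, hτ1, hτ2] at h2
    have h3 : (∑ j, (‖T.ι (b1 * a j * b2)‖ ^ 2 : ℂ)) - (β1 : ℂ) * (β2 : ℂ) * (N : ℂ)
        = (((∑ j, ‖T.ι (b1 * a j * b2)‖ ^ 2) - β * N : ℝ) : ℂ) := by
      rw [hβ]
      push_cast
      ring
    rw [h3, Complex.norm_real, Real.norm_eq_abs] at h2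
    have h4 := (abs_le.1 h2).1
    have h5 : ε * N * (‖T.ι (b1 * b1)‖ * ‖T.ι (b2 * b2)‖) ≤ β / 2 * N := by
      calc ε * N * (‖T.ι (b1 * b1)‖ * ‖T.ι (b2 * b2)‖) ≤ ε * N * M :=
            mul_le_mul_of_nonneg_left hMa (by positivity)
        _ = (ε * M) * N := by ring
        _ ≤ β / 2 * N := mul_le_mul_of_nonneg_right hεβ hN.le
    have h6 : β / 2 * N ≤ ∑ j, ‖T.ι (b1 * a j * b2)‖ ^ 2 := by linarith
    calc (1 : ℝ) = r ^ 2 * (β / 2 * N) := by rw [hr2]; field_simp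
      _ ≤ r ^ 2 * ∑ j, ‖T.ι (b1 * a j * b2)‖ ^ 2 := mul_le_mul_of_nonneg_left h6 (sq_nonneg r)
  · -- the conditional expectations
    have h1 : ∀ j, S.E (b1 * x j * b2) = (r : ℂ) • (b1 * S.E (a j) * b2) := by
      intro j
      rw [hxr, S.E_smul, S.E_mul_right hf2, S.E_mul_left hf1]
    simp only [h1]
    exact hfin _ hE
  · -- near-invariance
    intro s hs
    have h1 : ∀ j, S.α s (b1 * x j * b2) - b1 * x j * b2
        = (r : ℂ) • (b1 * (S.α s (a j) - a j) * b2) := by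
      intro j
      rw [hxr, map_smul, map_mul, map_mul, hf1 s, hf2 s, ← smul_sub]
      congr 1
      noncomm_ring
    simp only [h1]
    exact hfin _ (hnear s hs)
  · -- the densities
    intro j0
    have hw0 : ∀ b : A, IsSelfAdjoint b → S.Fixed b → T.τ (b * w j0 * b) = 0 := by
      intro b hs hf
      have h1 : T.τ (b * w j0 * b) = inner ℂ (T.ι (b * b)) (T.ι (w j0)) := by
        rw [T.inner_eq_τ, star_mul, hs.star_eq, T.τ_mul_comm, ← mul_assoc]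
      rw [h1, hw]
      simp only
      rw [map_sub, inner_sub_right, S.inner_E _ _ (S.fixedVec_of_fixed (TrAct.Fixed.mul S hf hf)),
        sub_self]
    have h1 : ∀ j, inner ℂ (T.ι (star (b1 * x j * b2) * (b1 * x j * b2)
          + (b1 * x j * b2) * star (b1 * x j * b2))) (T.ι (w j0))
        = ((r ^ 2 : ℝ) : ℂ) * T.τ (star (a j) * ((b1 * b1) * a j * (b2 * w j0 * b2)))
          + ((r ^ 2 : ℝ) : ℂ) * T.τ (star (a j) * ((b1 * w j0 * b1) * a j * (b2 * b2))) := by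
      intro j
      rw [T.inner_eq_τ, hxr]
      have hrr : star (r : ℂ) = (r : ℂ) := Complex.conj_ofReal r
      have e1 : star (star ((r : ℂ) • (b1 * a j * b2)) * ((r : ℂ) • (b1 * a j * b2))
          + ((r : ℂ) • (b1 * a j * b2)) * star ((r : ℂ) • (b1 * a j * b2))) * w j0
          = ((r : ℂ) * r) • (b2 * (star (a j) * (b1 * b1) * a j * b2 * w j0))
            + ((r : ℂ) * r) • (b1 * (a j * (b2 * b2) * star (a j) * b1 * w j0)) := by
        simp only [star_add, star_mul, star_star, star_smul, hrr, hs1.star_eq, hs2.star_eq,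
          smul_mul_assoc, mul_smul_comm, smul_smul, add_mul, mul_assoc]
      rw [e1, T.τ_add, T.τ_smul, T.τ_smul]
      have e2 : T.τ (b2 * (star (a j) * (b1 * b1) * a j * b2 * w j0))
          = T.τ (star (a j) * ((b1 * b1) * a j * (b2 * w j0 * b2))) := by
        rw [T.τ_mul_comm]
        congr 1
        noncomm_ring
      have e3 : T.τ (b1 * (a j * (b2 * b2) * star (a j) * b1 * w j0))
          = T.τ (star (a j) * ((b1 * w j0 * b1) * a j * (b2 * b2))) := by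
        have g1 : b1 * (a j * (b2 * b2) * star (a j) * b1 * w j0)
            = (b1 * a j * (b2 * b2)) * (star (a j) * b1 * w j0) := by noncomm_ring
        rw [g1, T.τ_mul_comm]
        congr 1
        noncomm_ring
      rw [e2, e3]
      push_cast
      ring
    have h3 : y j0 - S.E (y j0) = w j0 := by rw [hw]
    rw [h3, Finset.sum_congr rfl fun j _ => h1 j, Finset.sum_add_distrib, ← Finset.mul_sum,
      ← Finset.mul_sum]
    have c1 := hcov (b1 * b1) (b2 * w j0 * b2)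
    have c2 := hcov (b1 * w j0 * b1) (b2 * b2)
    rw [hw0 b2 hs2 hf2, mul_zero, zero_mul, sub_zero] at c1
    rw [hw0 b1 hs1 hf1, zero_mul, zero_mul, sub_zero] at c2
    refine (norm_add_le _ _).trans ?_
    rw [norm_mul, norm_mul, Complex.norm_real, Real.norm_of_nonneg (sq_nonneg r)]
    have c3 := mul_le_mul_of_nonneg_left c1 (sq_nonneg r)
    have c4 := mul_le_mul_of_nonneg_left c2 (sq_nonneg r)
    have c5 : r ^ 2 * (ε * N * (‖T.ι (b1 * b1)‖ * ‖T.ι (b2 * w j0 * b2)‖))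
        + r ^ 2 * (ε * N * (‖T.ι (b1 * w j0 * b1)‖ * ‖T.ι (b2 * b2)‖)) ≤ κ := by
      calc r ^ 2 * (ε * N * (‖T.ι (b1 * b1)‖ * ‖T.ι (b2 * w j0 * b2)‖))
          + r ^ 2 * (ε * N * (‖T.ι (b1 * w j0 * b1)‖ * ‖T.ι (b2 * b2)‖))
          = (r ^ 2 * N) * ε * (‖T.ι (b1 * b1)‖ * ‖T.ι (b2 * w j0 * b2)‖
            + ‖T.ι (b1 * w j0 * b1)‖ * ‖T.ι (b2 * b2)‖) := by ring
        _ ≤ (r ^ 2 * N) * ε * M := mul_le_mul_of_nonneg_left (hMc j0) (by positivity)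
        _ = (2 / β) * (ε * M) := by rw [hr2N]; ring
        _ ≤ (2 / β) * (κ * β / 2) := mul_le_mul_of_nonneg_left hεκ (by positivity)
        _ = κ := by field_simp
    linarith

/-- KEY from the spectral gap -/
theorem TrAct.key_of_gap (hout : S.Outer) {F0 : Finset A} {C0 : ℝ} (hg : T.Gap F0 C0)
    (hR : Reiter μ) : S.Key :=
  S.key_of_small 16 (by norm_num) fun J _ y hy hτ m0 _ C0 hC0 hm0 L ε hL hε hsoc i =>
    S.cond_small_fam (TrAct.stepATyp_of_gap μ hout hg hR) J y hy hτ m0 C0 hC0 hm0 L ε hL hε hsoc i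

end

end Pool.Agent.AbCoc
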